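import Mathlib

/-!
Blocks, admissible depth profiles and legitimate blocks (MP_57347c_gt, ZFC counterexample).
-/

set_option autoImplicit false

namespace Pool.Agent.PL50

open Classical

/-- The numerical data carried by a block. -/
structure Data (W : Type) where
  st : W
  rk : ℕ → W
  dp : ℕ → ℕ → ℕ → ℕ
  md : ℕ → ℕ → ℕ

/-- Raw blocks: a countable family of earlier blocks together with data. -/
inductive Blk (W : Type) : Type
  | mk (on : Set ℕ) (ch : on → Blk W) (d : Data W) : Blk W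

variable {W : Type}

namespace Blk

/-- `lt b y`: `b` is one of the earlier blocks listed in `y`. -/
def lt (b : Blk W) : Blk W → Prop
  | mk _ ch _ => ∃ k, ch k = b

def st : Blk W → W
  | mk _ _ d => d.st

def rk : Blk W → ℕ → W
  | mk _ _ d => d.rk

/-- Depth of the point `(y, a)` below the point `(b, a')`. -/
noncomputable def dp : Blk W → ℕ → Blk W → ℕ → ℕ
  | mk _ ch d, a, b, a' => if h : ∃ k, ch k = b then d.dp a (h.choose : ℕ) a' else 0

/-- Modulus of the point `(y, a)` at the block `b`. -/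
noncomputable def md : Blk W → ℕ → Blk W → ℕ
  | mk _ ch d, a, b => if h : ∃ k, ch k = b then d.md a (h.choose : ℕ) else 0

theorem lt_of_dp_ne {y b : Blk W} {a a' : ℕ} (h : dp y a b a' ≠ 0) : lt b y := by
  cases y with
  | mk on ch d =>
    by_contra hn
    apply h
    simp only [dp]
    rw [dif_neg]
    exact hn

theorem countable_lt (y : Blk W) : {b | lt b y}.Countable := by
  cases y with
  | mk on ch d => exact Set.countable_range ch

theorem exists_blk (R : Set (Blk W)) (hR : R.Countable) (s : W) (r : ℕ → W)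
    (D : ℕ → Blk W → ℕ → ℕ) (I : ℕ → Blk W → ℕ) :
    ∃ y : Blk W, (∀ b, lt b y ↔ b ∈ R) ∧ st y = s ∧ rk y = r ∧
      (∀ a b a', b ∈ R → dp y a b a' = D a b a') ∧ (∀ a b, b ∈ R → md y a b = I a b) := by
  obtain ⟨f, hf⟩ := Set.countable_iff_exists_injOn.1 hR
  let on : Set ℕ := f '' R
  let ch : on → Blk W := fun k => k.2.choose
  have hch : ∀ k : on, ch k ∈ R ∧ f (ch k) = k := fun k => k.2.choose_spec
  have hsur : ∀ b ∈ R, ∃ k, ch k = b := by
    intro b hb
    refine ⟨⟨f b, b, hb, rfl⟩, ?_⟩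
    exact hf (hch _).1 hb (hch ⟨f b, b, hb, rfl⟩).2
  let d : Data W :=
    { st := s, rk := r
      dp := fun a k a' => if h : k ∈ on then D a (ch ⟨k, h⟩) a' else 0
      md := fun a k => if h : k ∈ on then I a (ch ⟨k, h⟩) else 0 }
  refine ⟨mk on ch d, ?_, rfl, rfl, ?_, ?_⟩
  · intro b
    constructor
    · rintro ⟨k, rfl⟩
      exact (hch k).1
    · exact hsur b
  · intro a b a' hb
    have h := hsur b hb
    simp only [dp]
    rw [dif_pos h]
    simp only [d]
    rw [dif_pos h.choose.2]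
    have : ch ⟨h.choose.1, h.choose.2⟩ = b := h.choose_spec
    rw [this]
  · intro a b hb
    have h := hsur b hb
    simp only [md]
    rw [dif_pos h]
    simp only [d]
    rw [dif_pos h.choose.2]
    have : ch ⟨h.choose.1, h.choose.2⟩ = b := h.choose_spec
    rw [this]

end Blk

open Blk

/-- Admissible depth profiles. -/
structure Adm (φ : Blk W → ℕ → ℕ) : Prop where
  cmp : ∀ b a b' a', φ b a ≠ 0 → φ b' a' ≠ 0 → b = b' ∨ lt b b' ∨ lt b' b
  grd : ∀ w e b a, φ w e ≠ 0 → lt b w → 2 ≤ φ b a →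
    φ b a ≤ dp w e b a ∨ φ b a ≤ dp w e b (a + 1) + 1
  idn : ∀ w e b, φ w e ≠ 0 → md w e b ≤ φ w e → lt b w → ∀ a, φ b a = dp w e b a

theorem Adm.of_local {φ : Blk W → ℕ → ℕ}
    (h : ∀ b b', ∃ ψ, Adm ψ ∧ ψ b = φ b ∧ ψ b' = φ b') : Adm φ := by
  refine ⟨?_, ?_, ?_⟩
  · intro b a b' a' h1 h2
    obtain ⟨ψ, hψ, e1, e2⟩ := h b b'
    exact hψ.cmp b a b' a' (by rw [e1]; exact h1) (by rw [e2]; exact h2)
  · intro w e b a h1 h2 h3
    obtain ⟨ψ, hψ, e1, e2⟩ := h w b
    have := hψ.grd w e b a (by rw [e1]; exact h1) h2 (by rw [e2]; exact h3)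
    rwa [e2] at this
  · intro w e b h1 h2 h3 a
    obtain ⟨ψ, hψ, e1, e2⟩ := h w b
    have := hψ.idn w e b (by rw [e1]; exact h1) (by rw [e1]; exact h2) h3 a
    rwa [e2] at this

theorem Adm.zero : Adm (fun (_ : Blk W) (_ : ℕ) => 0) :=
  ⟨fun _ _ _ _ h _ => absurd rfl h, fun _ _ _ _ h _ _ => absurd rfl h,
    fun _ _ _ h _ _ _ => absurd rfl h⟩

/-- Legitimate blocks. -/
structure Legit [LinearOrder W] (y : Blk W) : Prop where
  trans : ∀ b b', lt b' b → lt b y → lt b' y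
  st_lt : ∀ b, lt b y → st b < st y
  mono : Monotone (rk y)
  adm : ∀ a, Adm (dp y a)
  one : ∀ a b a₁ a₂, dp y a b a₁ ≠ 0 → dp y a b a₂ ≠ 0 → a₁ = a₂
  rk_lt : ∀ a b a', dp y a b a' ≠ 0 → rk y a < rk b a'

/-- The combinatorial statement (N). -/
def StmtN (W : Type) [LinearOrder W] [OrderBot W] : Prop :=
  ∀ c : ℕ → Blk W → ℕ → ℕ, ∃ (T : W) (y : ℕ → Blk W × ℕ), (∀ n, Legit (y n).1) ∧
    ∀ s, T < s → ∃ v : Blk W, Legit v ∧ st v = s ∧ rk v 0 = ⊥ ∧
      ∀ n, c n (y n).1 (y n).2 ≤ dp v 0 (y n).1 (y n).2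

end Pool.Agent.PL50
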