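import Pool.Agent.PL50.Gap

/-!
Claim A: from all large starting times we have a winning strategy of some finite length.
-/

set_option autoImplicit false

namespace Pool.Agent.PL50

open Classical Blk Set

variable {W : Type} [LinearOrder W] [OrderBot W]

instance : Nonempty (Cfg W × Cfg W) := ⟨(start ⊥, start ⊥)⟩

/-- Our intervals in the view of agent `i`, which plays for the opponent. -/
def gapB (f : Hs W) (i t : ℕ) (T : W) : ℕ → Set W :=
  fun g => gapT (sT f (0, i)) f i t T (g + 1)

omit [OrderBot W] in
theorem gapT_congr {θj T : W} {f g : Hs W} {j t : ℕ} (h : ∀ u < t, f (u, j) = g (u, j)) :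
    gapT θj f j t T = gapT θj g j t T := by
  unfold gapT
  rw [gap_congr h, lo_congr h le_rfl]

omit [OrderBot W] in
theorem gapB_succ (f : Hs W) (i u : ℕ) (T : W) :
    gapB f i (u + 1) T =
      Function.update (gapB f i u (sT f (u, i))) u (Ioc (eT f (u, i)) T) := by
  funext g
  by_cases hg : g = u
  · subst hg
    rw [Function.update_self]
    unfold gapB gapT
    rw [Function.update_self]
    rfl
  · rw [Function.update_of_ne hg]
    unfold gapB
    rw [← gap_succ]
    unfold gapT
    rw [Function.update_of_ne (by omega)]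

omit [OrderBot W] in
theorem gapB_zero (f : Hs W) (i : ℕ) (T : W) : gapB f i 0 T = fun _ => ∅ := by
  funext g
  unfold gapB gapT
  rw [Function.update_of_ne (by omega)]
  simp [gap]

omit [OrderBot W] in
theorem slot_zero (f : Hs W) (i : ℕ) : slot f i 0 = fun _ => ∅ := by
  funext g
  simp [slot]

/-- After its move in round `t` the agent `i` still prevents us from winning. -/
def StatB (c : Blk W → ℕ → ℕ) (f : Hs W) (t i : ℕ) : Prop :=
  t < i → ∀ S'', Move (sT f (0, i)) (gapB f i (t + 1) S''.T) (Tr (sT f (0, i)) (f (t, i)).2) S'' →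
    ¬ Good c (sT f (0, i)) (i - t - 1) (t + 1) (slot f i (t + 1)) (gapB f i (t + 1) S''.T) S''

theorem StatB.congr {c : Blk W → ℕ → ℕ} {f g : Hs W} {t i : ℕ}
    (h : ∀ u ≤ t, f (u, i) = g (u, i)) (hs : StatB c f t i) : StatB c g t i := by
  have e0 : sT f (0, i) = sT g (0, i) := by
    unfold sT
    rw [h 0 (Nat.zero_le t)]
  have h' : ∀ u < t + 1, f (u, i) = g (u, i) := fun u hu => h u (by omega)
  have e1 : ∀ T, gapB f i (t + 1) T = gapB g i (t + 1) T := by
    intro T
    unfold gapB
    rw [e0, gapT_congr h']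
  intro hti S''
  rw [← e0, ← e1, ← slot_congr h', ← h t le_rfl]
  exact hs hti S''

theorem exists_book (hb : ∀ s : Set W, s.Countable → ∃ b, ∀ a ∈ s, a < b) (c : Blk W → ℕ → ℕ)
    (hB : ∀ T : W, ∃ θ, T < θ ∧ ∀ m, ¬ Good c θ m 0 (fun _ => ∅) (fun _ => ∅) (start θ)) :
    ∃ f : Hs W, ∀ p, Core (fun j => sT f (0, j)) f p ∧ StatB c f p.1 p.2 := by
  apply exists_hist (fun p (f : Hs W) => Core (fun j => sT f (0, j)) f p ∧ StatB c f p.1 p.2)
  · rintro ⟨t, i⟩ f g hfg ⟨h1, h2⟩
    refine ⟨h1.congr ?_ hfg, h2.congr fun u hu => hfg _ (le2_mk.2 (by simp only at hu; omega))⟩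
    show sT f (0, i) = sT g (0, i)
    unfold sT
    rw [hfg _ (le2_mk.2 (by omega))]
  · rintro ⟨t, i⟩ f hq
    have hp : ∀ q, lt2 q (t, i) → Core (fun j => sT f (0, j)) f q := fun q h => (hq q h).1
    obtain ⟨T₀, hT₀⟩ := hb (range (eT f)) (countable_range _)
    obtain ⟨T, hT, hbad⟩ := hB T₀
    obtain ⟨A, hAT, hA⟩ := exists_apart hp (T := T)
      (fun q _ => (hT₀ _ ⟨q, rfl⟩).trans hT)
    -- the history with the start of the present slot filled in
    have hne : ∀ q, lt2 q (t, i) → q ≠ (t, i) := by
      rintro q h rfl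
      exact lt2_irrefl _ h
    let f₁ : Hs W := Function.update f (t, i) (A, A)
    have hf₁ : ∀ q, lt2 q (t, i) → f q = f₁ q := fun q h =>
      (Function.update_of_ne (hne q h) _ _).symm
    have hs₁ : sT f₁ (t, i) = A.T := by
      unfold sT
      simp [f₁]
    have hθle : ∀ x ∈ Ioi A.T, sT f₁ (0, i) < x := by
      intro x hx
      cases t with
      | zero => rw [hs₁]; exact hx
      | succ u =>
        have h0 : lt2 (0, i) (u + 1, i) := Or.inl (by simp)
        have e : sT f₁ (0, i) = sT f (0, i) := by
          unfold sT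
          rw [hf₁ _ h0]
        rw [e]
        exact ((hp _ h0).s_le_e.trans_lt (hA.gap _ h0)).trans hx
    have pre : t < i → ¬ Good c (sT f₁ (0, i)) (i - t) t (slot f₁ i t) (gapB f₁ i t A.T)
        (Tr (sT f₁ (0, i)) A) := by
      intro hti
      cases t with
      | zero =>
        rw [hs₁, slot_zero, gapB_zero, Tr_eq_start hA.va, hAT]
        exact hbad _
      | succ u =>
        have hu : ∀ v ≤ u, lt2 (v, i) (u + 1, i) := fun v hv => Or.inl (by simp only; omega)
        have hst : StatB c f₁ u i := (hq _ (hu u le_rfl)).2.congr fun v hv => hf₁ _ (hu v hv)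
        have e : sT f₁ (0, i) = sT f (0, i) := by
          unfold sT
          rw [hf₁ _ (hu 0 (Nat.zero_le u))]
        have h0 : ∀ j, lt2 (0, j) (u + 1, i) := fun j => Or.inl (by simp)
        have mv := gap_move_succ (θ := fun j => sT f (0, j)) hp hA (fun _ => le_rfl) (by
          intro j
          rcases lt_trichotomy j i with h | h | h
          · exact Or.inl ((hp _ (h0 j)).s_le_e.trans
              ((hp _ (h0 i)).e_lt_s (lt2_mk.2 (by omega))).le)
          · exact Or.inl (by rw [h])
          · exact Or.inr ⟨h, (hp _ (h0 j)).e_lt_s (lt2_mk.2 (by omega))⟩)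
        have mv' := mv.shift (by
          ext x
          simp only [mem_gapT, mem_empty_iff_false, iff_false]
          rintro ⟨-, h1, h2⟩
          unfold hi at h2
          rw [if_pos (by omega)] at h2
          exact absurd h1 (not_lt.2 h2))
        have e2 : gapB f₁ i (u + 1) A.T =
            fun g => gapT (sT f (0, i)) f i (u + 1) A.T (g + 1) := by
          unfold gapB
          rw [e, gapT_congr (f := f) (g := f₁) fun v hv => hf₁ _ (hu v (by omega))]
        have := hst (by omega) (Tr (sT f₁ (0, i)) A) (by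
          show Move _ (gapB f₁ i (u + 1) A.T) _ _
          rw [e2, e, ← hf₁ _ (hu u le_rfl)]
          exact mv')
        have e3 : i - (u + 1) = i - u - 1 := by omega
        rw [e3]
        exact this
    have hslot : ∀ g, ∀ x ∈ slot f₁ i t g, sT f₁ (0, i) < x := by
      intro g x hx
      rw [mem_slot] at hx
      have hg : lt2 (g, i) (t, i) := Or.inl hx.1
      have h0 : lt2 (0, i) (t, i) := Or.inl (by have := hx.1; simp only; omega)
      have e0 : sT f₁ (0, i) = sT f (0, i) := by
        unfold sT
        rw [hf₁ _ h0]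
      have e1 : sT f₁ (g, i) = sT f (g, i) := by
        unfold sT
        rw [hf₁ _ hg]
      rw [e0]
      refine lt_of_le_of_lt ?_ hx.2.1
      rw [e1]
      cases g with
      | zero => exact le_rfl
      | succ g =>
        exact (hp _ h0).s_le_e.trans ((hp _ hg).e_lt_s (Or.inl (by simp))).le
    have main : ∃ B : Cfg W, Move (sT f₁ (0, i))
        (Function.update (slot f₁ i t) t (Ioc A.T B.T)) A B ∧
        (t < i → ∀ S'', Move (sT f₁ (0, i))
          (Function.update (gapB f₁ i t A.T) t (Ioc B.T S''.T)) (Tr (sT f₁ (0, i)) B) S'' →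
          ¬ Good c (sT f₁ (0, i)) (i - t - 1) (t + 1)
            (Function.update (slot f₁ i t) t (Ioc A.T B.T))
            (Function.update (gapB f₁ i t A.T) t (Ioc B.T S''.T)) S'') := by
      by_cases hti : t < i
      · have h1 := pre hti
        obtain ⟨k, hk⟩ : ∃ k, i - t = k + 1 := ⟨i - t - 1, by omega⟩
        rw [hk] at h1
        unfold Good at h1
        push Not at h1
        obtain ⟨S', hm, hS'⟩ := h1
        obtain ⟨B, hmB, hTr⟩ := Move.lift hA.va (by
          intro g x hx
          by_cases hg : g = t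
          · subst hg
            rw [Function.update_self] at hx
            exact hθle x hx.1
          · rw [Function.update_of_ne hg] at hx
            exact hslot g x hx) hm
        subst hTr
        refine ⟨B, hmB, fun _ S'' h => ?_⟩
        have e : i - t - 1 = k := by omega
        rw [e]
        exact hS' S'' h
      · exact ⟨A, Move.refl hA.va _ _, fun h => absurd h hti⟩
    obtain ⟨B, hmB, hst⟩ := main
    refine ⟨(A, B), ?_⟩
    set f₂ : Hs W := Function.update f (t, i) (A, B) with hf₂def
    have hf₂ : ∀ q, lt2 q (t, i) → f q = f₂ q := fun q h =>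
      (Function.update_of_ne (hne q h) _ _).symm
    have hp₂ : f₂ (t, i) = (A, B) := by simp [f₂]
    have h12 : ∀ u < t, f₁ (u, i) = f₂ (u, i) := fun u hu =>
      (hf₁ _ (Or.inl hu)).symm.trans (hf₂ _ (Or.inl hu))
    have es : sT f₂ (t, i) = A.T := by unfold sT; rw [hp₂]
    have ee : eT f₂ (t, i) = B.T := by unfold eT; rw [hp₂]
    have e0 : sT f₁ (0, i) = sT f₂ (0, i) := by
      cases t with
      | zero => rw [hs₁, es]
      | succ u =>
        unfold sT
        rw [h12 0 (by omega)]
    have e1 : slot f₂ i (t + 1) = Function.update (slot f₁ i t) t (Ioc A.T B.T) := by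
      rw [slot_succ, es, ee, slot_congr h12]
    have e2 : ∀ T', gapB f₂ i (t + 1) T' =
        Function.update (gapB f₁ i t A.T) t (Ioc B.T T') := by
      intro T'
      rw [gapB_succ, es, ee]
      unfold gapB
      rw [e0, gapT_congr h12]
    refine ⟨⟨?_, ?_⟩, ?_⟩
    · rw [hp₂]
      exact hA.congr hf₂
    · rw [hp₂]
      show Move (sT f₂ (0, i)) (slot f₂ i (t + 1)) A B
      rw [e1, ← e0]
      exact hmB
    · intro hti S''
      show Move (sT f₂ (0, i)) (gapB f₂ i (t + 1) S''.T) (Tr (sT f₂ (0, i)) (f₂ (t, i)).2) S'' →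
        ¬ Good c (sT f₂ (0, i)) (i - t - 1) (t + 1) (slot f₂ i (t + 1))
          (gapB f₂ i (t + 1) S''.T) S''
      rw [e1, e2, ← e0, hp₂]
      exact hst hti S''

end Pool.Agent.PL50
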