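import Pool.Agent.PL50.Basic

/-!
Configurations, moves, the game, truncation and the viewer lemma.
-/

set_option autoImplicit false

namespace Pool.Agent.PL50

open Classical Blk Set

/-- A configuration: current time, protected times, records. -/
structure Cfg (W : Type) where
  T : W
  P : Set W
  R : Blk W → W × ℕ

variable {W : Type} [LinearOrder W] [OrderBot W]

/-- The empty record. -/
def dflt : W × ℕ := (⊥, 0)

/-- A viewer of time `η` sees the record `ρ` on the block `b` at the index `a`. -/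
def Act (ρ : W × ℕ) (b : Blk W) (η : W) (a : ℕ) : Prop :=
  ρ.1 < η ∧ a < ρ.2 ∧ η < rk b a ∧ ∀ a' < a, rk b a' ≤ η

/-- The depth profile of a viewer of time `η`. -/
noncomputable def F (R : Blk W → W × ℕ) (η : W) (b : Blk W) (a : ℕ) : ℕ :=
  if Act (R b) b η a then (R b).2 - a else 0

structure RecOK (T : W) (b : Blk W) (ρ : W × ℕ) : Prop where
  leg : Legit b
  stp : st b ≤ T
  tk : ∀ a < ρ.2, rk b a ≤ T
  al : ∃ a < ρ.2, ρ.1 < rk b a

structure Valid (S : Cfg W) : Prop where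
  cnt : {b | S.R b ≠ dflt}.Countable
  rcd : ∀ b, S.R b ≠ dflt → RecOK S.T b (S.R b)
  ple : ∀ η ∈ S.P, η ≤ S.T
  adm : ∀ η ∈ S.P, Adm (F S.R η)

structure NewOK (θ : W) (I : ℕ → Set W) (b : Blk W) (ρ : W × ℕ) : Prop where
  br : ρ.1 = θ ∨ ∃ g, ρ.1 ∈ I g
  tk : ∀ a < ρ.2, ρ.1 < rk b a → ∃ g, rk b a ∈ I g
  sp : ∀ a a', a < a' → a' < ρ.2 → ρ.1 < rk b a → ∀ g, rk b a ∈ I g → rk b a' ∉ I g

structure Move (θ : W) (I : ℕ → Set W) (S S' : Cfg W) : Prop where
  val : Valid S'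
  le : S.T ≤ S'.T
  old : ∀ b, st b ≤ S.T → S'.R b = S.R b
  new : ∀ b, S.T < st b → S'.R b ≠ dflt → NewOK θ I b (S'.R b)
  prot : ∀ η, (∀ g, η ∉ I g) → (η ∈ S'.P ↔ η ∈ S.P)

def Win (c : Blk W → ℕ → ℕ) (θ : W) (S : Cfg W) : Prop :=
  ∃ b a, (S.R b).1 = θ ∧ a < (S.R b).2 ∧ θ < rk b a ∧ (∀ a' < a, rk b a' ≤ θ) ∧
    c b a ≤ (S.R b).2 - a

/-- `Good c θ m t Io Iu S`: we can answer `m` more moves of the opponent and win. -/
def Good (c : Blk W → ℕ → ℕ) (θ : W) : ℕ → ℕ → (ℕ → Set W) → (ℕ → Set W) → Cfg W → Prop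
  | 0, _, _, _, S => Win c θ S
  | m + 1, t, Io, Iu, S => ∀ S', Move θ (Function.update Io t (Ioc S.T S'.T)) S S' →
      ∃ S'', Move θ (Function.update Iu t (Ioc S'.T S''.T)) S' S'' ∧
        Good c θ m (t + 1) (Function.update Io t (Ioc S.T S'.T))
          (Function.update Iu t (Ioc S'.T S''.T)) S''

def start (θ : W) : Cfg W := ⟨θ, ∅, fun _ => dflt⟩

/-- Truncation at the time `θ`. -/
noncomputable def Tr (θ : W) (S : Cfg W) : Cfg W :=
  ⟨S.T, S.P ∩ Ioi θ,
    fun b => if ∃ a < (S.R b).2, θ < rk b a then (max (S.R b).1 θ, (S.R b).2) else dflt⟩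

omit [OrderBot W] in
theorem Act.unique {ρ : W × ℕ} {b : Blk W} {η : W} {a a' : ℕ} (h : Act ρ b η a)
    (h' : Act ρ b η a') : a = a' := by
  rcases lt_trichotomy a a' with hl | he | hl
  · exact absurd (h'.2.2.2 a hl) (not_le.2 h.2.2.1)
  · exact he
  · exact absurd (h.2.2.2 a' hl) (not_le.2 h'.2.2.1)

theorem not_act_dflt (b : Blk W) (η : W) (a : ℕ) : ¬ Act (dflt : W × ℕ) b η a :=
  fun h => absurd h.2.1 (Nat.not_lt_zero a)

omit [OrderBot W] in
theorem F_ne_iff {R : Blk W → W × ℕ} {η : W} {b : Blk W} {a : ℕ} :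
    F R η b a ≠ 0 ↔ Act (R b) b η a := by
  unfold F
  constructor
  · intro h
    by_contra hn
    exact h (if_neg hn)
  · intro h
    rw [if_pos h]
    have := h.2.1
    omega

omit [OrderBot W] in
theorem F_of_act {R : Blk W → W × ℕ} {η : W} {b : Blk W} {a : ℕ} (h : Act (R b) b η a) :
    F R η b a = (R b).2 - a := if_pos h

omit [OrderBot W] in
theorem F_of_not_act {R : Blk W → W × ℕ} {η : W} {b : Blk W} {a : ℕ} (h : ¬ Act (R b) b η a) :
    F R η b a = 0 := if_neg h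

omit [OrderBot W] in
theorem F_congr {R R' : Blk W → W × ℕ} {b : Blk W} (h : R b = R' b) (η : W) :
    F R η b = F R' η b := by
  funext a
  unfold F
  rw [h]

theorem F_of_dflt {R : Blk W → W × ℕ} {b : Blk W} (h : R b = dflt) (η : W) (a : ℕ) :
    F R η b a = 0 := by
  apply F_of_not_act
  rw [h]
  exact not_act_dflt b η a

theorem ne_dflt_of_F {R : Blk W → W × ℕ} {η : W} {b : Blk W} {a : ℕ} (h : F R η b a ≠ 0) :
    R b ≠ dflt := fun e => h (F_of_dflt e η a)

theorem ne_dflt_of_lt {ρ : W × ℕ} {a : ℕ} (h : a < ρ.2) : ρ ≠ dflt := by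
  rintro rfl
  exact absurd h (Nat.not_lt_zero a)

theorem Tr_R_pos {θ : W} {S : Cfg W} {b : Blk W} (h : ∃ a < (S.R b).2, θ < rk b a) :
    (Tr θ S).R b = (max (S.R b).1 θ, (S.R b).2) := if_pos h

theorem Tr_R_neg {θ : W} {S : Cfg W} {b : Blk W} (h : ¬ ∃ a < (S.R b).2, θ < rk b a) :
    (Tr θ S).R b = dflt := if_neg h

theorem Tr_R_congr {θ : W} {S S' : Cfg W} {b : Blk W} (h : S.R b = S'.R b) :
    (Tr θ S).R b = (Tr θ S').R b := by
  simp only [Tr, h]

theorem Tr_R_dflt {θ : W} {S : Cfg W} {b : Blk W} (h : S.R b = dflt) : (Tr θ S).R b = dflt := by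
  apply Tr_R_neg
  rintro ⟨a, ha, -⟩
  exact ne_dflt_of_lt ha h

theorem Tr_alive {θ : W} {S : Cfg W} {b : Blk W} (h : (Tr θ S).R b ≠ dflt) :
    ∃ a < (S.R b).2, θ < rk b a := by
  by_contra hn
  exact h (Tr_R_neg hn)

theorem F_Tr {θ η : W} (S : Cfg W) (h : θ < η) : F (Tr θ S).R η = F S.R η := by
  funext b a
  by_cases hb : ∃ a < (S.R b).2, θ < rk b a
  · unfold F
    rw [Tr_R_pos hb]
    have : Act (max (S.R b).1 θ, (S.R b).2) b η a ↔ Act (S.R b) b η a := by
      unfold Act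
      simp [h]
    simp only [this]
  · rw [F_of_dflt (Tr_R_neg hb), F_of_not_act]
    intro hA
    exact hb ⟨a, hA.2.1, h.trans hA.2.2.1⟩

theorem Valid.tr {S : Cfg W} (h : Valid S) (θ : W) : Valid (Tr θ S) := by
  refine ⟨?_, ?_, ?_, ?_⟩
  · refine h.cnt.mono ?_
    intro b hb e
    exact hb (Tr_R_dflt e)
  · intro b hb
    obtain ⟨a, ha, hθ⟩ := Tr_alive hb
    have hr := h.rcd b (ne_dflt_of_lt ha)
    rw [Tr_R_pos ⟨a, ha, hθ⟩]
    refine ⟨hr.leg, hr.stp, hr.tk, ?_⟩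
    obtain ⟨a', ha', hβ⟩ := hr.al
    refine ⟨max a a', max_lt ha ha', max_lt ?_ ?_⟩
    · exact hβ.trans_le (hr.leg.mono (le_max_right a a'))
    · exact hθ.trans_le (hr.leg.mono (le_max_left a a'))
  · intro η hη
    exact h.ple η hη.1
  · intro η hη
    rw [F_Tr S hη.2]
    exact h.adm η hη.1

theorem Move.refl {S : Cfg W} (h : Valid S) (θ : W) (I : ℕ → Set W) : Move θ I S S :=
  ⟨h, le_rfl, fun _ _ => rfl, fun b hb hn => absurd (h.rcd b hn).stp (not_le.2 hb),
    fun _ _ => Iff.rfl⟩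

theorem Tr_eq_start {S : Cfg W} (h : Valid S) : Tr S.T S = start S.T := by
  unfold Tr start
  congr 1
  · ext η
    simp only [mem_inter_iff, mem_Ioi, mem_empty_iff_false, iff_false, not_and, not_lt]
    exact h.ple η
  · funext b
    rw [if_neg]
    rintro ⟨a, ha, hθ⟩
    exact absurd ((h.rcd b (ne_dflt_of_lt ha)).tk a ha) (not_le.2 hθ)

omit [OrderBot W] in
theorem NewOK.le_birth {θ : W} {I : ℕ → Set W} {b : Blk W} {ρ : W × ℕ} (h : NewOK θ I b ρ)
    (hI : ∀ g, ∀ x ∈ I g, θ < x) : θ ≤ ρ.1 := by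
  rcases h.br with e | ⟨g, hg⟩
  · exact e.ge
  · exact (hI g _ hg).le

/-- A move on the truncated view lifts to the full configuration. -/
theorem Move.lift {θ : W} {I : ℕ → Set W} {A S' : Cfg W} (hA : Valid A)
    (hI : ∀ g, ∀ x ∈ I g, θ < x) (h : Move θ I (Tr θ A) S') :
    ∃ B, Move θ I A B ∧ Tr θ B = S' := by
  let B : Cfg W := ⟨S'.T, (A.P ∩ Iic θ) ∪ S'.P, fun b => if st b ≤ A.T then A.R b else S'.R b⟩
  have hle : A.T ≤ S'.T := h.le
  have hBo : ∀ b, st b ≤ A.T → B.R b = A.R b := fun b hb => if_pos hb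
  have hBn : ∀ b, A.T < st b → B.R b = S'.R b := fun b hb => if_neg (not_le.2 hb)
  have hP : ∀ η ∈ S'.P, θ < η := by
    intro η hη
    by_contra hn
    have := (h.prot η (fun g hg => hn (hI g η hg))).1 hη
    exact hn this.2
  have hTr : Tr θ B = S' := by
    have e1 : (Tr θ B).P = S'.P := by
      ext η
      constructor
      · rintro ⟨h1 | h1, h2⟩
        · exact absurd h1.2 (not_le.2 h2)
        · exact h1
      · intro h1
        exact ⟨Or.inr h1, hP η h1⟩
    have e2 : (Tr θ B).R = S'.R := by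
      funext b
      rcases le_or_gt (st b) A.T with hb | hb
      · rw [Tr_R_congr (hBo b hb)]
        exact (h.old b hb).symm
      · by_cases hd : S'.R b = dflt
        · rw [hd]
          exact Tr_R_dflt ((hBn b hb).trans hd)
        · have hn := (h.new b hb hd).le_birth hI
          obtain ⟨a, ha, hβ⟩ := (h.val.rcd b hd).al
          rw [Tr_R_pos ⟨a, by rw [hBn b hb]; exact ha, hn.trans_lt hβ⟩, hBn b hb,
            max_eq_left hn]
    cases S' with
    | mk T' P' R' =>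
      simp only [Tr] at e1 e2 ⊢
      congr 1
  refine ⟨B, ⟨⟨?_, ?_, ?_, ?_⟩, hle, hBo, ?_, ?_⟩, hTr⟩
  · refine (hA.cnt.union h.val.cnt).mono ?_
    intro b hb
    rcases le_or_gt (st b) A.T with h1 | h1
    · left
      simpa [hBo b h1] using hb
    · right
      simpa [hBn b h1] using hb
  · intro b hb
    rcases le_or_gt (st b) A.T with h1 | h1
    · rw [hBo b h1] at hb ⊢
      have hr := hA.rcd b hb
      exact ⟨hr.leg, hr.stp.trans hle, fun a ha => (hr.tk a ha).trans hle, hr.al⟩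
    · rw [hBn b h1] at hb ⊢
      exact h.val.rcd b hb
  · rintro η (h1 | h1)
    · exact (hA.ple η h1.1).trans hle
    · exact h.val.ple η h1
  · rintro η (h1 | h1)
    · have : F B.R η = F A.R η := by
        funext b
        rcases le_or_gt (st b) A.T with hb | hb
        · exact F_congr (hBo b hb) η
        · funext a
          have e0 : A.R b = dflt := by
            by_contra hd
            exact absurd (hA.rcd b hd).stp (not_le.2 hb)
          rw [F_of_dflt e0]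
          apply F_of_not_act
          intro hact
          rw [hBn b hb] at hact
          have hn := (h.new b hb (ne_dflt_of_lt hact.2.1)).le_birth hI
          exact absurd (hn.trans_lt hact.1) (not_lt.2 h1.2)
      rw [this]
      exact hA.adm η h1.1
    · rw [← F_Tr B (hP η h1), hTr]
      exact h.val.adm η h1
  · intro b hb hd
    rw [hBn b hb] at hd ⊢
    exact h.new b hb hd
  · intro η hη
    constructor
    · rintro (h1 | h1)
      · exact h1.1
      · exact ((h.prot η hη).1 h1).1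
    · intro h1
      rcases le_or_gt η θ with h2 | h2
      · exact Or.inl ⟨h1, h2⟩
      · exact Or.inr ((h.prot η hη).2 ⟨h1, h2⟩)

/-- Dropping the empty first interval. -/
theorem Move.shift {θ : W} {I : ℕ → Set W} {S S' : Cfg W} (h : Move θ I S S') (h0 : I 0 = ∅) :
    Move θ (fun g => I (g + 1)) S S' := by
  have key : ∀ x, (∃ g, x ∈ I g) → ∃ g, x ∈ I (g + 1) := by
    rintro x ⟨g, hg⟩
    cases g with
    | zero => rw [h0] at hg; exact absurd hg (notMem_empty x)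
    | succ g => exact ⟨g, hg⟩
  refine ⟨h.val, h.le, h.old, ?_, ?_⟩
  · intro b hb hd
    have hn := h.new b hb hd
    refine ⟨hn.br.imp id (key _), fun a ha hβ => key _ (hn.tk a ha hβ), ?_⟩
    intro a a' h1 h2 h3 g
    exact hn.sp a a' h1 h2 h3 (g + 1)
  · intro η hη
    apply h.prot
    intro g hg
    obtain ⟨g', hg'⟩ := key η ⟨g, hg⟩
    exact hη g' hg'

/-- The viewer lemma. -/
theorem exists_viewer (R : Blk W → W × ℕ) (hc : {b | R b ≠ dflt}.Countable) (s : W)
    (hl : ∀ b, R b ≠ dflt → Legit b ∧ st b < s) (η r : ℕ → W) (hr : Monotone r)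
    (hrη : ∀ g, r g ≤ η g) (hadm : ∀ g, Adm (F R (η g))) (I : ℕ → Blk W → ℕ) :
    ∃ y : Blk W, Legit y ∧ st y = s ∧ rk y = r ∧ (∀ g, dp y g = F R (η g)) ∧
      (∀ b, R b ≠ dflt → lt b y) ∧ (∀ g b, lt b y → md y g b = I g b) := by
  let C : Set (Blk W) := {b | R b ≠ dflt} ∪ ⋃ b ∈ {b | R b ≠ dflt}, {b' | lt b' b}
  have hC : C.Countable := hc.union (hc.biUnion fun b _ => countable_lt b)
  have hmem : ∀ b, b ∈ C ↔ R b ≠ dflt ∨ ∃ b₁, R b₁ ≠ dflt ∧ lt b b₁ := by
    intro b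
    simp [C]
  obtain ⟨y, h1, h2, h3, h4, h5⟩ := exists_blk C hC s r (fun g => F R (η g)) I
  have hdp : ∀ g, dp y g = F R (η g) := by
    intro g
    funext b a
    by_cases hb : b ∈ C
    · exact h4 g b a hb
    · have e1 : dp y g b a = 0 := by
        by_contra hn
        exact hb ((h1 b).1 (lt_of_dp_ne hn))
      have e2 : R b = dflt := by
        by_contra hn
        exact hb ((hmem b).2 (Or.inl hn))
      rw [e1, F_of_dflt e2]
  refine ⟨y, ⟨?_, ?_, ?_, ?_, ?_, ?_⟩, h2, h3, hdp, ?_, ?_⟩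
  · intro b b' hb' hb
    rw [h1, hmem] at hb ⊢
    rcases hb with hb | ⟨b₁, hb₁, hb⟩
    · exact Or.inr ⟨b, hb, hb'⟩
    · exact Or.inr ⟨b₁, hb₁, (hl b₁ hb₁).1.trans b b' hb' hb⟩
  · intro b hb
    rw [h1, hmem] at hb
    rw [h2]
    rcases hb with hb | ⟨b₁, hb₁, hb⟩
    · exact (hl b hb).2
    · exact ((hl b₁ hb₁).1.st_lt b hb).trans (hl b₁ hb₁).2
  · rw [h3]
    exact hr
  · intro g
    rw [hdp]
    exact hadm g
  · intro g b a₁ a₂ ha₁ ha₂
    rw [hdp] at ha₁ ha₂
    exact (F_ne_iff.1 ha₁).unique (F_ne_iff.1 ha₂)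
  · intro g b a ha
    rw [hdp] at ha
    rw [h3]
    exact (hrη g).trans_lt (F_ne_iff.1 ha).2.2.1
  · intro b hb
    exact (h1 b).2 ((hmem b).2 (Or.inl hb))
  · intro g b hb
    exact h5 g b ((h1 b).1 hb)

end Pool.Agent.PL50
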