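import Pool.Agent.PL50.Book

/-!
The last move in the bookkeeping schedule and Claim A.
-/

set_option autoImplicit false

namespace Pool.Agent.PL50

open Classical Blk Set

variable {W : Type} [LinearOrder W] [OrderBot W]

section

variable {θ : ℕ → W} {f : Hs W}

theorem s_le_s (hc : ∀ q, Core θ f q) {p q : ℕ × ℕ} (h : le2 p q) : sT f p ≤ sT f q := by
  rcases h with h | rfl
  · exact (hc p).s_le_e.trans ((hc q).e_lt_s h).le
  · exact le_rfl

/-- Guardian rule for the viewer of the time `sT f (g+1, 0)`. -/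
theorem grd_step (hc : ∀ q, Core θ f q) {R : Blk W → W × ℕ} (hR : IsComb f (fun _ => True) R)
    {g m : ℕ} {η : W} (hη : η ∈ Ioc (sT f (g, m)) (eT f (g, m))) {b : Blk W} {a : ℕ}
    (h2 : 2 ≤ F R η b a) :
    F R η b a ≤ F R (sT f (g + 1, 0)) b a ∨ F R η b a ≤ F R (sT f (g + 1, 0)) b (a + 1) + 1 := by
  have hact : Act (R b) b η a := F_ne_iff.1 (by omega)
  rw [F_of_act hact] at h2 ⊢
  obtain ⟨⟨g₀, i⟩, -, -, hn, hr⟩ := hR.origin (fun q _ => hc q) (ne_dflt_of_lt hact.2.1)
  have hηρ : η < sT f (g + 1, 0) := hη.2.trans_lt ((hc _).e_lt_s (Or.inl (by simp)))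
  have ha1 : a + 1 < (R b).2 := by omega
  have hβ : (R b).1 < rk b a := hact.1.trans hact.2.2.1
  have hm : rk b a ≤ rk b (a + 1) := hr.leg.mono (Nat.le_succ a)
  obtain ⟨g₁, hg₁⟩ := hn.tk a hact.2.1 hβ
  obtain ⟨g₂, hg₂⟩ := hn.tk (a + 1) ha1 (hβ.trans_le hm)
  have hne : g₁ ≠ g₂ := by
    rintro rfl
    exact hn.sp a (a + 1) (Nat.lt_succ_self a) ha1 hβ g₁ hg₁ hg₂
  rw [mem_slot] at hg₁ hg₂
  have h12 : g₁ < g₂ := by
    by_contra hn
    have : lt2 (g₂, i) (g₁, i) := Or.inl (by simp only; omega)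
    exact lt_irrefl _ ((hm.trans hg₂.2.2).trans_lt (((hc _).e_lt_s this).trans hg₁.2.1))
  have hg1 : g ≤ g₁ := by
    by_contra hn
    have : lt2 (g₁, i) (g, m) := Or.inl (by simp only; omega)
    exact lt_irrefl _ ((hact.2.2.1.trans_le hg₁.2.2).trans (((hc _).e_lt_s this).trans hη.1))
  have hρ : sT f (g + 1, 0) < rk b (a + 1) :=
    (s_le_s hc (le2_mk.2 (by omega))).trans_lt hg₂.2.1
  rcases lt_or_ge (sT f (g + 1, 0)) (rk b a) with h | h
  · left
    rw [F_of_act ⟨hact.1.trans hηρ, hact.2.1, h, fun a' ha' => (hact.2.2.2 a' ha').trans hηρ.le⟩]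
  · right
    rw [F_of_act ⟨hact.1.trans hηρ, ha1, hρ, ?_⟩]
    · omega
    · intro a' ha'
      rcases Nat.lt_succ_iff_lt_or_eq.1 ha' with h1 | rfl
      · exact (hact.2.2.2 a' h1).trans hηρ.le
      · exact h

/-- A record of an earlier agent has no event between `η` and the end of the round. -/
theorem idn_step (hc : ∀ q, Core θ f q) (hθ : ∀ i, θ i ≤ sT f (0, i)) {R : Blk W → W × ℕ}
    (hR : IsComb f (fun _ => True) R) {g m : ℕ} {η : W}
    (hη : η ∈ Ioc (sT f (g, m)) (eT f (g, m))) {b : Blk W} {q : ℕ × ℕ}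
    (hq : st b ∈ Ioc (sT f q) (eT f q)) (hm : q.2 < m) (a : ℕ) :
    F R η b a = F R (sT f (g + 1, 0)) b a := by
  by_cases hd : R b = dflt
  · rw [F_of_dflt hd, F_of_dflt hd]
  obtain ⟨q', -, hq', hn, hr⟩ := hR.origin (fun q _ => hc q) hd
  have e := slot_unique (hc _) (hc _) hq hq'
  subst e
  obtain ⟨g₀, i⟩ := q
  simp only at hm hn
  have hηρ : η < sT f (g + 1, 0) := hη.2.trans_lt ((hc _).e_lt_s (Or.inl (by simp)))
  have K1 : ∀ g' x, x ∈ slot f i (g₀ + 1) g' → x < η ∨ sT f (g + 1, 0) < x := by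
    intro g' x hx
    rw [mem_slot] at hx
    rcases le_or_gt g' g with h | h
    · left
      exact (hx.2.2.trans_lt ((hc (g, m)).e_lt_s (lt2_mk.2 (by omega)))).trans hη.1
    · right
      exact (s_le_s hc (le2_mk.2 (by omega))).trans_lt hx.2.1
  have K2 : (R b).1 < η ↔ (R b).1 < sT f (g + 1, 0) := by
    refine ⟨fun h => h.trans hηρ, fun h => ?_⟩
    rcases hn.br with e | ⟨g', hg'⟩
    · rw [e]
      exact (((hθ i).trans (hc _).s_le_e).trans_lt
        ((hc (g, m)).e_lt_s (lt2_mk.2 (by omega)))).trans hη.1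
    · rcases K1 g' _ hg' with h1 | h1
      · exact h1
      · exact absurd h (not_lt.2 h1.le)
  have K3 : (R b).1 < η → ∀ a' < (R b).2, (η < rk b a' ↔ sT f (g + 1, 0) < rk b a') := by
    intro hβ a' ha'
    refine ⟨fun h => ?_, fun h => hηρ.trans h⟩
    obtain ⟨g', hg'⟩ := hn.tk a' ha' (hβ.trans h)
    rcases K1 g' _ hg' with h1 | h1
    · exact absurd h (not_lt.2 h1.le)
    · exact h1
  have : Act (R b) b η a ↔ Act (R b) b (sT f (g + 1, 0)) a := by
    constructor
    · rintro ⟨h1, h2, h3, h4⟩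
      exact ⟨K2.1 h1, h2, (K3 h1 a h2).1 h3, fun a' ha' => (h4 a' ha').trans hηρ.le⟩
    · rintro ⟨h1, h2, h3, h4⟩
      refine ⟨K2.2 h1, h2, hηρ.trans h3, fun a' ha' => ?_⟩
      by_contra hn
      exact absurd ((K3 (K2.2 h1) a' (ha'.trans h2)).1 (not_le.1 hn)) (not_lt.2 (h4 a' ha'))
  unfold F
  simp only [this]

end

theorem claimA (hb : ∀ s : Set W, s.Countable → ∃ b, ∀ a ∈ s, a < b) (c : Blk W → ℕ → ℕ) :
    ∃ T : W, ∀ θ, T < θ → ∃ m, Good c θ m 0 (fun _ => ∅) (fun _ => ∅) (start θ) := by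
  by_contra hcon
  push Not at hcon
  obtain ⟨f, hf⟩ := exists_book hb c hcon
  have hc : ∀ q, Core (fun j => sT f (0, j)) f q := fun q => (hf q).1
  obtain ⟨R, hR⟩ := exists_comb (D := fun _ => True) (fun q _ => hc q)
  obtain ⟨s, hs⟩ := hb (range (eT f)) (countable_range _)
  have hs' : ∀ q, eT f q < s := fun q => hs _ ⟨q, rfl⟩
  let ρ : ℕ → W := fun g => sT f (g + 1, 0)
  let I : ℕ → Blk W → ℕ := fun _ b =>
    if h : ∃ q, st b ∈ Ioc (sT f q) (eT f q) then max h.choose.1 h.choose.2 + 1 else 0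
  obtain ⟨y, hy, hys, hyr, hyd, hyl, hym⟩ := exists_viewer R (hR.countable fun q _ => hc q) s
    (by
      intro b hb
      obtain ⟨q, -, -, -, hr⟩ := hR.origin (fun q _ => hc q) hb
      exact ⟨hr.leg, hr.stp.trans_lt (hs' q)⟩)
    ρ ρ (monotone_nat_of_le_succ fun g => s_le_s hc (Or.inl (Or.inl (by simp))))
    (fun _ => le_rfl)
    (fun g => hR.adm (fun q _ => hc q) (fun _ _ _ _ => trivial) (q₀ := (g + 1, 0)) trivial
      fun q _ hq => special_mem (fun q' _ => hc q') hq) I
  obtain ⟨u, hu⟩ : ∃ u, u = c y 0 := ⟨_, rfl⟩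
  set θ : W := sT f (0, u + 1) with hθ
  set S' : Cfg W := Tr θ (f (u, u + 1)).2 with hS'
  have hS'v : Valid S' := (hc (u, u + 1)).mv.val.tr θ
  have hS'T : S'.T = eT f (u, u + 1) := rfl
  let J : ℕ → Set W := gapB f (u + 1) (u + 1) s
  let S'' : Cfg W := ⟨s, {η | η ∈ S'.P ∧ ∀ g, η ∉ J g}, Function.update S'.R y (θ, u + 1)⟩
  have hRy : S''.R y = (θ, u + 1) := by simp [S'']
  have hRb : ∀ b, b ≠ y → S''.R b = S'.R b := fun b hb => Function.update_of_ne hb _ _
  have hθρ : θ < ρ 0 := (hc _).s_le_e.trans_lt ((hc (1, 0)).e_lt_s (Or.inl (by simp)))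
  have hne : ∀ b, S'.R b ≠ dflt → b ≠ y := by
    rintro b hb rfl
    have := (hS'v.rcd _ hb).stp
    rw [hys, hS'T] at this
    exact absurd this (not_le.2 (hs' _))
  have hρJ : ∀ a < u + 1, ρ a ∈ J a := by
    intro a ha
    refine mem_gapT.2 ⟨by omega, (hc (a + 1, 0)).e_lt_s (Or.inl (by simp)), ?_⟩
    unfold hi
    split_ifs
    · exact s_le_s hc (le2_mk.2 (by omega))
    · exact (hc _).s_le_e.trans (hs' _).le
  have hyy : ¬ lt y y := fun h => lt_irrefl _ (hy.st_lt y h)
  have hagree : ∀ b, st b ≤ eT f (u, u + 1) → R b = (f (u, u + 1)).2.R b := fun b hb =>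
    hR.agree (fun q _ => hc q) (fun _ _ => trivial) trivial hb
  have hadm : ∀ η ∈ S''.P, Adm (F S''.R η) := by
    rintro η ⟨hP, hJ⟩
    have hθη : θ < η := hP.2
    have hA : Adm (F S'.R η) := hS'v.adm η hP
    obtain ⟨g, hg, hη⟩ := gap_cover (f := f) (t := u + 1) (j := u + 1) (T := s) hθη
      ((hS'v.ple η hP).trans (hs' _).le) (by
        intro γ hγ
        cases γ with
        | zero =>
          rw [mem_gapT] at hγ
          have h2 := hγ.2.2
          unfold hi at h2
          rw [if_pos (by omega)] at h2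
          exact absurd hθη (not_lt.2 h2)
        | succ γ => exact hJ γ hγ)
    have hηρ : η < ρ g := hη.2.trans_lt ((hc _).e_lt_s (Or.inl (by simp)))
    have hFb : ∀ b, b ≠ y → F S''.R η b = F S'.R η b := fun b hb => F_congr (hRb b hb) η
    have hacty : Act (S''.R y) y η g := by
      rw [hRy]
      refine ⟨hθη, hg, by rw [hyr]; exact hηρ, fun a' ha' => ?_⟩
      rw [hyr]
      exact ((s_le_s hc (le2_mk.2 (by omega))).trans_lt hη.1).le
    have hFy : ∀ e, F S''.R η y e ≠ 0 → e = g := fun e he => (F_ne_iff.1 he).unique hacty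
    have hFyg : F S''.R η y g = u + 1 - g := by rw [F_of_act hacty, hRy]
    have hF' : F S'.R η = F (f (u, u + 1)).2.R η := F_Tr _ hθη
    have hFR : ∀ b a, F S'.R η b a ≠ 0 → R b = (f (u, u + 1)).2.R b := by
      intro b a h
      exact hagree b (hS'v.rcd b (ne_dflt_of_F h)).stp
    have hlt : ∀ b a, F S'.R η b a ≠ 0 → lt b y := by
      intro b a h
      apply hyl
      rw [hFR b a h]
      rw [hF'] at h
      exact ne_dflt_of_F h
    have hby : ∀ w e b, F S''.R η w e ≠ 0 → lt b w → b ≠ y := by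
      rintro w e b h hl rfl
      by_cases hw : w = b
      · subst hw
        exact hyy hl
      · rw [hFb w hw] at h
        have hr := hS'v.rcd w (ne_dflt_of_F h)
        have h1 := (hr.leg.st_lt b hl).trans_le hr.stp
        rw [hys, hS'T] at h1
        exact absurd h1 (not_lt.2 (hs' _).le)
    refine ⟨?_, ?_, ?_⟩
    · intro b a b' a' h1 h2
      by_cases hb : b = y
      · by_cases hb' : b' = y
        · exact Or.inl (hb.trans hb'.symm)
        · rw [hFb b' hb'] at h2
          exact Or.inr (Or.inr (hb ▸ hlt b' a' h2))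
      · rw [hFb b hb] at h1
        by_cases hb' : b' = y
        · exact Or.inr (Or.inl (hb' ▸ hlt b a h1))
        · rw [hFb b' hb'] at h2
          exact hA.cmp b a b' a' h1 h2
    · intro w e b a h1 hl h2
      have hb := hby w e b h1 hl
      rw [hFb b hb] at h2 ⊢
      by_cases hw : w = y
      · subst hw
        rw [hFy e h1, hyd]
        have e1 : F S'.R η b a = F R η b a := by
          rw [hF', F_congr (hFR b a (by omega)) η]
        rw [e1] at h2 ⊢
        exact grd_step hc hR hη h2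
      · rw [hFb w hw] at h1
        exact hA.grd w e b a h1 hl h2
    · intro w e b h1 h2 hl a
      have hb := hby w e b h1 hl
      rw [hFb b hb]
      by_cases hw : w = y
      · subst hw
        rw [hFy e h1, hFyg, hym g b hl] at h2
        rw [hFy e h1, hyd, hF']
        by_cases h : ∃ q, st b ∈ Ioc (sT f q) (eT f q)
        · have h3 : I g b = max h.choose.1 h.choose.2 + 1 := dif_pos h
          rw [h3] at h2
          have h4 : le2 h.choose (u, u + 1) := by
            have : h.choose = (h.choose.1, h.choose.2) := rfl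
            rw [this, le2_mk]
            omega
          rw [← F_congr (hagree b (h.choose_spec.2.trans ((hc _).e_le_e h4))) η]
          exact idn_step hc (fun _ => le_rfl) hR hη h.choose_spec (by omega) a
        · push Not at h
          have e1 : R b = dflt := hR.ra2 b fun q _ => h q
          have e2 : (f (u, u + 1)).2.R b = dflt := by
            by_contra hn
            exact hn ((hagree b ((hc _).mv.val.rcd b hn).stp).symm.trans e1)
          rw [F_of_dflt e1, F_of_dflt e2]
      · rw [hFb w hw] at h1 h2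
        exact hA.idn w e b h1 h2 hl a
  have hmv : Move θ J S' S'' := by
    refine ⟨⟨?_, ?_, ?_, hadm⟩, (hs' _).le, ?_, ?_, ?_⟩
    · refine (hS'v.cnt.insert y).mono ?_
      intro b hb
      by_cases h : b = y
      · exact Or.inl h
      · right
        simpa [hRb b h] using hb
    · intro b hb
      by_cases h : b = y
      · subst h
        rw [hRy]
        refine ⟨hy, hys.le, fun a _ => ?_, 0, Nat.succ_pos u, by rw [hyr]; exact hθρ⟩
        rw [hyr]
        exact (hc _).s_le_e.trans (hs' _).le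
      · rw [hRb b h] at hb ⊢
        have hr := hS'v.rcd b hb
        exact ⟨hr.leg, hr.stp.trans (hs' _).le, fun a ha => (hr.tk a ha).trans (hs' _).le, hr.al⟩
    · intro η hη
      exact (hS'v.ple η hη.1).trans (hs' _).le
    · intro b hb
      apply hRb
      rintro rfl
      rw [hys, hS'T] at hb
      exact absurd hb (not_le.2 (hs' _))
    · intro b hb hd
      have h : b = y := by
        by_contra h
        rw [hRb b h] at hd
        exact absurd (hS'v.rcd b hd).stp (not_le.2 hb)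
      subst h
      rw [hRy]
      refine ⟨Or.inl rfl, fun a ha _ => ⟨a, by rw [hyr]; exact hρJ a ha⟩, ?_⟩
      intro a a' haa ha' _ g h1 h2
      rw [hyr] at h1 h2
      have e1 := gapT_disj (fun q _ => hc q) h1 (hρJ a (haa.trans ha'))
      have e2 := gapT_disj (fun q _ => hc q) h2 (hρJ a' ha')
      omega
    · intro η hη
      exact ⟨fun h => h.1, fun h => ⟨h, hη⟩⟩
  have hfin := (hf (u, u + 1)).2 (Nat.lt_succ_self u) S'' hmv
  apply hfin
  have e : u + 1 - u - 1 = 0 := by omega
  simp only [e]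
  refine ⟨y, 0, by rw [hRy], by rw [hRy]; exact Nat.succ_pos u, by rw [hyr]; exact hθρ,
    fun a' ha' => absurd ha' (Nat.not_lt_zero a'), ?_⟩
  rw [hRy, ← hu]
  simp

end Pool.Agent.PL50
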