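import Pool.Agent.PL50.Hist

/-!
What happens between two slots of an agent is a legal move of the other player.
-/

set_option autoImplicit false

namespace Pool.Agent.PL50

open Classical Blk Set

variable {W : Type} [LinearOrder W] [OrderBot W]

/-- Left end of the `γ`-th gap of agent `j`. -/
def lo (θj : W) (f : Hs W) (j : ℕ) : ℕ → W
  | 0 => θj
  | γ + 1 => eT f (γ, j)

/-- The gaps of agent `j` before its slot in round `t`. -/
def gap (θj : W) (f : Hs W) (j t : ℕ) : ℕ → Set W :=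
  fun γ => if γ < t then Ioc (lo θj f j γ) (sT f (γ, j)) else ∅

/-- Right end of the `γ`-th gap, the last one ending at `T`. -/
def hi (f : Hs W) (j t : ℕ) (T : W) (γ : ℕ) : W := if γ < t then sT f (γ, j) else T

/-- The gaps up to the current time `T`. -/
def gapT (θj : W) (f : Hs W) (j t : ℕ) (T : W) : ℕ → Set W :=
  Function.update (gap θj f j t) t (Ioc (lo θj f j t) T)

omit [OrderBot W] in
theorem mem_gapT {θj T x : W} {f : Hs W} {j t γ : ℕ} :
    x ∈ gapT θj f j t T γ ↔ γ ≤ t ∧ lo θj f j γ < x ∧ x ≤ hi f j t T γ := by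
  unfold gapT hi
  by_cases h : γ = t
  · subst h
    simp
  · rw [Function.update_of_ne h]
    unfold gap
    by_cases h1 : γ < t
    · simp [h1, h1.le]
    · have : ¬ γ ≤ t := by omega
      simp [h1, this]

omit [OrderBot W] in
theorem gap_succ (θj : W) (f : Hs W) (j t : ℕ) :
    gap θj f j (t + 1) = gapT θj f j t (sT f (t, j)) := by
  funext u
  unfold gapT
  by_cases hu : u = t
  · subst hu
    simp [gap]
  · rw [Function.update_of_ne hu]
    unfold gap
    by_cases h1 : u < t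
    · rw [if_pos h1, if_pos (by omega)]
    · rw [if_neg h1, if_neg (by omega)]

omit [LinearOrder W] [OrderBot W] in
theorem lo_congr {θj : W} {f g : Hs W} {j t : ℕ} (h : ∀ u < t, f (u, j) = g (u, j)) {γ : ℕ}
    (hγ : γ ≤ t) : lo θj f j γ = lo θj g j γ := by
  cases γ with
  | zero => rfl
  | succ γ =>
    show (f (γ, j)).2.T = (g (γ, j)).2.T
    rw [h γ (by omega)]

omit [OrderBot W] in
theorem gap_congr {θj : W} {f g : Hs W} {j t : ℕ} (h : ∀ u < t, f (u, j) = g (u, j)) :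
    gap θj f j t = gap θj g j t := by
  funext u
  unfold gap
  split_ifs with hu
  · rw [lo_congr h hu.le]
    unfold sT
    rw [h u hu]
  · rfl

section

variable {θ : ℕ → W} {f : Hs W} {t j : ℕ} {A : Cfg W}

theorem e_lt_hi (hp : ∀ q, lt2 q (t, j) → Core θ f q) (hA : APart f (t, j) A) {γ : ℕ}
    (hγ : γ ≤ t) {q : ℕ × ℕ} (hq : lt2 q (γ, j)) : eT f q < hi f j t A.T γ := by
  unfold hi
  split_ifs with h
  · exact (hp (γ, j) (Or.inl h)).e_lt_s hq
  · have : γ = t := by omega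
    subst this
    exact hA.gap q hq

theorem gapT_disj (hp : ∀ q, lt2 q (t, j) → Core θ f q) {θj T x : W} {γ γ' : ℕ}
    (h : x ∈ gapT θj f j t T γ) (h' : x ∈ gapT θj f j t T γ') : γ = γ' := by
  have key : ∀ γ γ', γ < γ' → x ∈ gapT θj f j t T γ → x ∈ gapT θj f j t T γ' → False := by
    intro γ γ' hlt h h'
    rw [mem_gapT] at h h'
    obtain ⟨δ, rfl⟩ : ∃ δ, γ' = δ + 1 := ⟨γ' - 1, by omega⟩
    have h1 : γ < t := by omega
    have h2 : hi f j t T γ = sT f (γ, j) := if_pos h1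
    have h3 : eT f (γ, j) ≤ eT f (δ, j) :=
      (hp (δ, j) (Or.inl (by simp only; omega))).e_le_e (le2_mk.2 (by omega))
    have h4 := (hp (γ, j) (Or.inl h1)).s_le_e
    have h5 : eT f (δ, j) < x := h'.2.1
    rw [h2] at h
    exact lt_irrefl x ((h.2.2.trans (h4.trans h3)).trans_lt h5)
  rcases lt_trichotomy γ γ' with hl | he | hl
  · exact (key _ _ hl h h').elim
  · exact he
  · exact (key _ _ hl h' h).elim

theorem slot_sub_gap (hp : ∀ q, lt2 q (t, j) → Core θ f q) (hA : APart f (t, j) A) {θj x : W}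
    {g i : ℕ} (hq : lt2 (g, i) (t, j)) (hij : i ≠ j) (hx : x ∈ Ioc (sT f (g, i)) (eT f (g, i)))
    (hθ : θj < x) : x ∈ gapT θj f j t A.T (if i < j then g else g + 1) := by
  rw [mem_gapT]
  rw [lt2_mk] at hq
  split_ifs with h
  · refine ⟨by omega, ?_, ?_⟩
    · cases g with
      | zero => exact hθ
      | succ g =>
        exact ((hp (g + 1, i) (lt2_mk.2 hq)).e_lt_s (q := (g, j)) (Or.inl (by simp))).trans hx.1
    · exact hx.2.trans (e_lt_hi hp hA (by omega) (lt2_mk.2 (by omega))).le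
  · refine ⟨by omega, ?_, ?_⟩
    · exact ((hp (g, i) (lt2_mk.2 hq)).e_lt_s (q := (g, j)) (lt2_mk.2 (by omega))).trans hx.1
    · exact hx.2.trans (e_lt_hi hp hA (by omega) (lt2_mk.2 (by omega))).le

theorem gap_new (hp : ∀ q, lt2 q (t, j) → Core θ f q) (hA : APart f (t, j) A)
    (hθ1 : ∀ i, lt2 (0, i) (t, j) → θ i ≤ sT f (0, i))
    (hθ2 : ∀ i, lt2 (0, i) (t, j) → θ i ≤ θ j ∨ (j < i ∧ eT f (0, j) < θ i))
    {b : Blk W} (hb : lo (θ j) f j t < st b) (hd : (Tr (θ j) A).R b ≠ dflt) :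
    NewOK (θ j) (gapT (θ j) f j t A.T) b ((Tr (θ j) A).R b) := by
  have hal := Tr_alive hd
  obtain ⟨a₀, ha₀, -⟩ := id hal
  obtain ⟨⟨g₀, i⟩, hq, hst, hn, hr⟩ := hA.comb.origin hp (ne_dflt_of_lt ha₀)
  simp only at hn
  have hq' := lt2_mk.1 hq
  have hij : i ≠ j := by
    rintro rfl
    obtain ⟨u, rfl⟩ : ∃ u, t = u + 1 := ⟨t - 1, by omega⟩
    have h1 : eT f (g₀, i) ≤ eT f (u, i) :=
      (hp (u, i) (Or.inl (by simp))).e_le_e (le2_mk.2 (by omega))
    exact lt_irrefl _ ((hst.2.trans h1).trans_lt hb)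
  have inc : ∀ g x, x ∈ slot f i (g₀ + 1) g → θ j < x →
      x ∈ gapT (θ j) f j t A.T (if i < j then g else g + 1) := by
    intro g x hx hθ
    rw [mem_slot] at hx
    exact slot_sub_gap hp hA (lt2_mk.2 (by omega)) hij hx.2 hθ
  rw [Tr_R_pos hal]
  refine ⟨?_, ?_, ?_⟩
  · rcases le_or_gt (A.R b).1 (θ j) with h | h
    · exact Or.inl (max_eq_right h)
    · right
      simp only [max_eq_left h.le]
      rcases hn.br with e | ⟨g, hg⟩
      · have h0 : lt2 (0, i) (t, j) := lt2_mk.2 (by omega)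
        rcases hθ2 i h0 with h1 | ⟨h1, h2⟩
        · exact absurd (e.le.trans h1) (not_le.2 h)
        · refine ⟨1, mem_gapT.2 ⟨by omega, ?_, ?_⟩⟩
          · rw [e]
            exact h2
          · rw [e]
            exact (hθ1 i h0).trans ((hp _ h0).s_le_e.trans
              (e_lt_hi hp hA (by omega) (lt2_mk.2 (by omega))).le)
      · exact ⟨_, inc g _ hg h⟩
  · intro a ha hβ
    obtain ⟨g, hg⟩ := hn.tk a ha (max_lt_iff.1 hβ).1
    exact ⟨_, inc g _ hg (max_lt_iff.1 hβ).2⟩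
  · intro a a' haa ha' hβ γ h1 h2
    have hm : rk b a ≤ rk b a' := hr.leg.mono haa.le
    obtain ⟨hβ1, hβ2⟩ := max_lt_iff.1 hβ
    obtain ⟨g, hg⟩ := hn.tk a (haa.trans ha') hβ1
    obtain ⟨g', hg'⟩ := hn.tk a' ha' (hβ1.trans_le hm)
    have e1 := gapT_disj hp h1 (inc g _ hg hβ2)
    have e2 := gapT_disj hp h2 (inc g' _ hg' (hβ2.trans_le hm))
    have e : g = g' := by
      split_ifs at e1 e2 <;> omega
    subst e
    exact hn.sp a a' haa ha' hβ1 g hg hg'

omit [OrderBot W] in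
theorem gap_cover {θj T η : W} (h1 : θj < η) (h2 : η ≤ T) (h : ∀ γ, η ∉ gapT θj f j t T γ) :
    ∃ g < t, η ∈ Ioc (sT f (g, j)) (eT f (g, j)) := by
  have key : ∀ γ ≤ t, lo θj f j γ < η ∨ ∃ g < γ, η ∈ Ioc (sT f (g, j)) (eT f (g, j)) := by
    intro γ
    induction γ with
    | zero => exact fun _ => Or.inl h1
    | succ γ ih =>
      intro hγ
      rcases ih (by omega) with h3 | ⟨g, hg, h3⟩
      · have h4 : sT f (γ, j) < η := by
          by_contra hn
          apply h γ
          rw [mem_gapT]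
          refine ⟨by omega, h3, ?_⟩
          unfold hi
          rw [if_pos (by omega)]
          exact not_lt.1 hn
        rcases le_or_gt η (eT f (γ, j)) with h5 | h5
        · exact Or.inr ⟨γ, by omega, h4, h5⟩
        · exact Or.inl h5
      · exact Or.inr ⟨g, by omega, h3⟩
  rcases key t le_rfl with h3 | h3
  · exfalso
    apply h t
    rw [mem_gapT]
    refine ⟨le_rfl, h3, ?_⟩
    unfold hi
    rw [if_neg (lt_irrefl t)]
    exact h2
  · exact h3

theorem gap_move_succ {u : ℕ} (hp : ∀ q, lt2 q (u + 1, j) → Core θ f q)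
    (hA : APart f (u + 1, j) A)
    (hθ1 : ∀ i, θ i ≤ sT f (0, i)) (hθ2 : ∀ i, θ i ≤ θ j ∨ (j < i ∧ eT f (0, j) < θ i)) :
    Move (θ j) (gapT (θ j) f j (u + 1) A.T) (Tr (θ j) (f (u, j)).2) (Tr (θ j) A) := by
  have hu : lt2 (u, j) (u + 1, j) := Or.inl (by simp)
  have hc := hp _ hu
  refine ⟨hA.va.tr _, (hA.gap _ hu).le, ?_, ?_, ?_⟩
  · intro b hb
    exact Tr_R_congr (hA.comb.agree hp (fun q' hq' => lt2_trans hq' hu) hu hb)
  · intro b hb hd
    exact gap_new hp hA (fun i _ => hθ1 i) (fun i _ => hθ2 i) hb hd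
  · intro η hη
    rcases le_or_gt η (θ j) with h1 | h1
    · exact ⟨fun h => absurd h1 (not_le.2 h.2), fun h => absurd h1 (not_le.2 h.2)⟩
    · rcases le_or_gt η A.T with h2 | h2
      · obtain ⟨g, hg, hs⟩ := gap_cover h1 h2 hη
        have hg' : lt2 (g, j) (u + 1, j) := Or.inl hg
        have hl : last (u + 1, j) j = (u, j) := by
          unfold last
          simp
        constructor
        · rintro ⟨h, -⟩
          refine ⟨?_, h1⟩
          rw [hA.pa] at h
          rcases h with ⟨-, h⟩ | ⟨t', ht', h⟩ | ⟨q, hq, h, hP⟩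
          · exact absurd (h.ge.trans hs.2) (not_le.2 (hA.gap _ hg'))
          · rw [h] at hs
            exact absurd hs (start_not_mem_slot (hp _ ht') (hp _ hg'))
          · have e := slot_unique (hp q hq) (hp _ hg') h hs
            subst e
            rwa [hl] at hP
        · rintro ⟨h, -⟩
          refine ⟨?_, h1⟩
          rw [hA.pa]
          exact Or.inr (Or.inr ⟨(g, j), hg', hs, by rw [hl]; exact h⟩)
      · constructor
        · intro h
          exact absurd (hA.va.ple η h.1) (not_le.2 h2)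
        · intro h
          exact absurd ((hc.mv.val.ple η h.1).trans (hA.gap _ hu).le) (not_le.2 h2)

theorem gap_move_zero (hp : ∀ q, lt2 q (0, j) → Core θ f q) (hA : APart f (0, j) A)
    (hθ0 : θ j ≤ A.T) (hθ1 : ∀ i, lt2 (0, i) (0, j) → θ i ≤ sT f (0, i))
    (hθ2 : ∀ i, θ i ≤ θ j) (hθ3 : ∀ q, lt2 q (0, j) → θ j ≤ sT f q) :
    Move (θ j) (gapT (θ j) f j 0 A.T) (start (θ j)) (Tr (θ j) A) := by
  refine ⟨hA.va.tr _, hθ0, ?_, ?_, ?_⟩
  · intro b hb
    apply Tr_R_dflt
    apply hA.comb.ra2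
    intro q hq h
    exact absurd (hb.trans (hθ3 q hq)) (not_le.2 h.1)
  · intro b hb hd
    exact gap_new hp hA hθ1 (fun i _ => Or.inl (hθ2 i)) hb hd
  · intro η hη
    refine ⟨fun h => ?_, fun h => absurd h (notMem_empty η)⟩
    obtain ⟨g, hg, -⟩ := gap_cover h.2 (hA.va.ple η h.1) hη
    exact absurd hg (Nat.not_lt_zero g)

end

end Pool.Agent.PL50
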