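import Pool.Agent.PL50.Cfg

/-!
Schedules: slots `(t, i)` in lexicographic order, agent `i` moves in slot `(t, i)`.
-/

set_option autoImplicit false

namespace Pool.Agent.PL50

open Classical Blk Set

/-- Strict lexicographic order on slots. -/
def lt2 (p q : ℕ × ℕ) : Prop := p.1 < q.1 ∨ (p.1 = q.1 ∧ p.2 < q.2)

/-- Lexicographic order on slots. -/
def le2 (p q : ℕ × ℕ) : Prop := lt2 p q ∨ p = q

theorem lt2_wf : WellFounded lt2 := by
  have h : WellFounded (Prod.Lex (· < · : ℕ → ℕ → Prop) (· < · : ℕ → ℕ → Prop)) :=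
    WellFounded.prod_lex wellFounded_lt wellFounded_lt
  refine Subrelation.wf ?_ h
  rintro ⟨a, b⟩ ⟨c, d⟩ h1
  rcases h1 with h1 | ⟨h1, h2⟩
  · exact Prod.Lex.left _ _ h1
  · simp only at h1 h2
    subst h1
    exact Prod.Lex.right _ h2

theorem lt2_trans {p q r : ℕ × ℕ} (h1 : lt2 p q) (h2 : lt2 q r) : lt2 p r := by
  unfold lt2 at *
  omega

theorem lt2_irrefl (p : ℕ × ℕ) : ¬ lt2 p p := by
  unfold lt2
  omega

theorem lt2_tri (p q : ℕ × ℕ) : lt2 p q ∨ p = q ∨ lt2 q p := by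
  obtain ⟨a, b⟩ := p
  obtain ⟨c, d⟩ := q
  unfold lt2
  simp only [Prod.mk.injEq]
  omega

theorem le2_refl (p : ℕ × ℕ) : le2 p p := Or.inr rfl

theorem lt2_of_le2_of_lt2 {p q r : ℕ × ℕ} (h1 : le2 p q) (h2 : lt2 q r) : lt2 p r := by
  rcases h1 with h1 | rfl
  · exact lt2_trans h1 h2
  · exact h2

theorem lt2_of_lt2_of_le2 {p q r : ℕ × ℕ} (h1 : lt2 p q) (h2 : le2 q r) : lt2 p r := by
  rcases h2 with h2 | rfl
  · exact lt2_trans h1 h2
  · exact h1

theorem le2_trans {p q r : ℕ × ℕ} (h1 : le2 p q) (h2 : le2 q r) : le2 p r := by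
  rcases h1 with h1 | rfl
  · exact Or.inl (lt2_of_lt2_of_le2 h1 h2)
  · exact h2

theorem le2_total (p q : ℕ × ℕ) : le2 p q ∨ le2 q p := by
  rcases lt2_tri p q with h | h | h
  · exact Or.inl (Or.inl h)
  · exact Or.inl (Or.inr h)
  · exact Or.inr (Or.inl h)

theorem le2_mk {a b c d : ℕ} : le2 (a, b) (c, d) ↔ a < c ∨ (a = c ∧ b ≤ d) := by
  unfold le2 lt2
  simp only [Prod.mk.injEq]
  omega

theorem lt2_mk {a b c d : ℕ} : lt2 (a, b) (c, d) ↔ a < c ∨ (a = c ∧ b < d) := Iff.rfl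

/-- Recursive choice along the schedule. -/
theorem exists_hist {α : Type} [Nonempty α] (Q : ℕ × ℕ → (ℕ × ℕ → α) → Prop)
    (hdep : ∀ p f g, (∀ q, le2 q p → f q = g q) → Q p f → Q p g)
    (hex : ∀ p f, (∀ q, lt2 q p → Q q f) → ∃ x, Q p (Function.update f p x)) :
    ∃ f, ∀ p, Q p f := by
  let ext : ∀ p : ℕ × ℕ, (∀ q, lt2 q p → α) → ℕ × ℕ → α :=
    fun p h q => if hq : lt2 q p then h q hq else Classical.arbitrary α
  let G : ∀ p : ℕ × ℕ, (∀ q, lt2 q p → α) → α :=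
    fun p h => Classical.epsilon fun x => Q p (Function.update (ext p h) p x)
  let f : ℕ × ℕ → α := lt2_wf.fix G
  have hf : ∀ p, f p = G p (fun q _ => f q) := fun p => lt2_wf.fix_eq G p
  refine ⟨f, fun p => lt2_wf.induction (C := fun p => Q p f) p ?_⟩
  intro p ih
  have he : ∀ q, lt2 q p → ext p (fun q _ => f q) q = f q := fun q hq => dif_pos hq
  have h1 : ∀ q, lt2 q p → Q q (ext p (fun q _ => f q)) := by
    intro q hq
    refine hdep q f _ ?_ (ih q hq)
    intro r hr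
    exact (he r (lt2_of_le2_of_lt2 hr hq)).symm
  have h2 := Classical.epsilon_spec (hex p _ h1)
  refine hdep p _ f ?_ h2
  intro q hq
  rcases hq with hq | rfl
  · have hne : q ≠ p := by
      rintro rfl
      exact lt2_irrefl _ hq
    rw [Function.update_of_ne hne]
    exact he q hq
  · rw [Function.update_self]
    exact (hf q).symm

variable {W : Type} [LinearOrder W] [OrderBot W]

/-- A history gives for each slot the configuration before and after it. -/
abbrev Hs (W : Type) := ℕ × ℕ → Cfg W × Cfg W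

def sT (f : Hs W) (q : ℕ × ℕ) : W := (f q).1.T

def eT (f : Hs W) (q : ℕ × ℕ) : W := (f q).2.T

/-- The slots of agent `j` in the rounds before `t`. -/
def slot (f : Hs W) (j t : ℕ) : ℕ → Set W :=
  fun g => if g < t then Ioc (sT f (g, j)) (eT f (g, j)) else ∅

/-- The last slot of agent `j` before `p`. -/
def last (p : ℕ × ℕ) (j : ℕ) : ℕ × ℕ := if j < p.2 then (p.1, j) else (p.1 - 1, j)

theorem le2_last {p q : ℕ × ℕ} (h : lt2 q p) : le2 q (last p q.2) := by
  obtain ⟨a, b⟩ := p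
  obtain ⟨c, d⟩ := q
  unfold last
  rw [lt2_mk] at h
  split_ifs with h1
  · rw [le2_mk]; simp only at h1 ⊢; omega
  · rw [le2_mk]; simp only at h1 ⊢; omega

theorem last_lt2 {p q : ℕ × ℕ} (h : lt2 q p) : lt2 (last p q.2) p := by
  obtain ⟨a, b⟩ := p
  obtain ⟨c, d⟩ := q
  unfold last
  rw [lt2_mk] at h
  split_ifs with h1
  · exact Or.inr ⟨rfl, h1⟩
  · rw [lt2_mk]; simp only at h1 ⊢; omega

theorem last_snd (p : ℕ × ℕ) (j : ℕ) : (last p j).2 = j := by
  unfold last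
  split_ifs <;> rfl

theorem last_eq_of {p q : ℕ × ℕ} {j : ℕ} (h1 : lt2 (last p j) q) (h2 : lt2 q p) :
    last q j = last p j := by
  obtain ⟨a, b⟩ := p
  obtain ⟨c, d⟩ := q
  rw [lt2_mk] at h2
  by_cases k1 : j < b
  · have e1 : last (a, b) j = (a, j) := if_pos k1
    rw [e1] at h1 ⊢
    rw [lt2_mk] at h1
    have k2 : j < d := by omega
    have e2 : last (c, d) j = (c, j) := if_pos k2
    rw [e2]
    congr 1
    omega
  · have e1 : last (a, b) j = (a - 1, j) := if_neg k1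
    rw [e1] at h1 ⊢
    rw [lt2_mk] at h1
    by_cases k2 : j < d
    · have e2 : last (c, d) j = (c, j) := if_pos k2
      rw [e2]
      congr 1
      omega
    · have e2 : last (c, d) j = (c - 1, j) := if_neg k2
      rw [e2]
      congr 1
      omega

theorem snd_ne_of_last {p q : ℕ × ℕ} {j : ℕ} (h1 : lt2 (last p j) q) (h2 : lt2 q p) :
    q.2 ≠ j := by
  intro e
  have := le2_last h2
  rw [e] at this
  exact lt2_irrefl _ (lt2_of_le2_of_lt2 this h1)

/-- `R` collects the records created in the slots of `D`. -/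
structure IsComb (f : Hs W) (D : ℕ × ℕ → Prop) (R : Blk W → W × ℕ) : Prop where
  ra1 : ∀ q, D q → ∀ b, st b ∈ Ioc (sT f q) (eT f q) → R b = (f q).2.R b
  ra2 : ∀ b, (∀ q, D q → st b ∉ Ioc (sT f q) (eT f q)) → R b = dflt

/-- Protected times at the start of slot `p`. -/
def Prot (f : Hs W) (p : ℕ × ℕ) (T η : W) : Prop :=
  (p.2 = 0 ∧ η = T) ∨ (∃ t, lt2 (t, 0) p ∧ η = sT f (t, 0)) ∨
    ∃ q, lt2 q p ∧ η ∈ Ioc (sT f q) (eT f q) ∧ η ∈ (f (last p q.2)).2.P

/-- `A` is the configuration at the start of slot `p`. -/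
structure APart (f : Hs W) (p : ℕ × ℕ) (A : Cfg W) : Prop where
  gap : ∀ q, lt2 q p → eT f q < A.T
  comb : IsComb f (fun q => lt2 q p) A.R
  pa : ∀ η, η ∈ A.P ↔ Prot f p A.T η
  va : Valid A

structure Core (θ : ℕ → W) (f : Hs W) (p : ℕ × ℕ) : Prop where
  ap : APart f p (f p).1
  mv : Move (θ p.2) (slot f p.2 (p.1 + 1)) (f p).1 (f p).2

omit [OrderBot W] in
theorem slot_congr {f g : Hs W} {j t : ℕ} (h : ∀ u < t, f (u, j) = g (u, j)) :
    slot f j t = slot g j t := by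
  funext u
  unfold slot sT eT
  split_ifs with hu
  · rw [h u hu]
  · rfl

omit [OrderBot W] in
theorem slot_succ (f : Hs W) (j t : ℕ) :
    slot f j (t + 1) = Function.update (slot f j t) t (Ioc (sT f (t, j)) (eT f (t, j))) := by
  funext u
  by_cases hu : u = t
  · subst hu
    simp [slot]
  · rw [Function.update_of_ne hu]
    unfold slot
    by_cases h1 : u < t
    · rw [if_pos h1, if_pos (by omega)]
    · rw [if_neg h1, if_neg (by omega)]

omit [OrderBot W] in
theorem mem_slot {f : Hs W} {j t g : ℕ} {x : W} :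
    x ∈ slot f j t g ↔ g < t ∧ x ∈ Ioc (sT f (g, j)) (eT f (g, j)) := by
  unfold slot
  split_ifs with h
  · simp [h]
  · simp [h]

theorem APart.congr {f g : Hs W} {p : ℕ × ℕ} {A : Cfg W} (hfg : ∀ q, lt2 q p → f q = g q)
    (h : APart f p A) : APart g p A := by
  have hs : ∀ q, lt2 q p → sT f q = sT g q := fun q hq => by unfold sT; rw [hfg q hq]
  have he : ∀ q, lt2 q p → eT f q = eT g q := fun q hq => by unfold eT; rw [hfg q hq]
  refine ⟨?_, ⟨?_, ?_⟩, ?_, h.va⟩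
  · intro q hq
    rw [← he q hq]
    exact h.gap q hq
  · intro q hq b hb
    rw [← hfg q hq]
    apply h.comb.ra1 q hq
    rwa [hs q hq, he q hq]
  · intro b hb
    apply h.comb.ra2
    intro q hq
    rw [hs q hq, he q hq]
    exact hb q hq
  · intro η
    rw [h.pa]
    unfold Prot
    refine or_congr Iff.rfl (or_congr ?_ ?_)
    · refine exists_congr fun t => and_congr_right fun ht => ?_
      rw [hs _ ht]
    · refine exists_congr fun q => and_congr_right fun hq => ?_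
      rw [hs q hq, he q hq, hfg _ (last_lt2 hq)]

theorem Core.congr {θ θ' : ℕ → W} {f g : Hs W} {p : ℕ × ℕ} (hθ : θ p.2 = θ' p.2)
    (hfg : ∀ q, le2 q p → f q = g q) (h : Core θ f p) : Core θ' g p := by
  have e := hfg p (le2_refl p)
  refine ⟨?_, ?_⟩
  · rw [← e]
    exact h.ap.congr fun q hq => hfg q (Or.inl hq)
  · rw [← e, ← hθ, ← slot_congr (f := f)]
    · exact h.mv
    · intro u hu
      apply hfg
      obtain ⟨a, b⟩ := p
      rw [le2_mk]
      simp only at hu ⊢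
      omega

section generic

variable {θ : ℕ → W} {f : Hs W} {D : ℕ × ℕ → Prop}

theorem Core.s_le_e {p : ℕ × ℕ} (h : Core θ f p) : sT f p ≤ eT f p := h.mv.le

theorem Core.e_lt_s {p q : ℕ × ℕ} (h : Core θ f p) (hq : lt2 q p) : eT f q < sT f p :=
  h.ap.gap q hq

theorem Core.e_le_e {p q : ℕ × ℕ} (h : Core θ f p) (hq : le2 q p) : eT f q ≤ eT f p := by
  rcases hq with hq | rfl
  · exact (h.e_lt_s hq).le.trans h.s_le_e
  · exact le_rfl

theorem slot_unique {p q : ℕ × ℕ} (hp : Core θ f p) (hq : Core θ f q) {x : W}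
    (h1 : x ∈ Ioc (sT f p) (eT f p)) (h2 : x ∈ Ioc (sT f q) (eT f q)) : p = q := by
  rcases lt2_tri p q with h | h | h
  · exact absurd (h1.2.trans_lt ((hq.e_lt_s h).trans h2.1)) (lt_irrefl x)
  · exact h
  · exact absurd (h2.2.trans_lt ((hp.e_lt_s h).trans h1.1)) (lt_irrefl x)

theorem start_not_mem_slot {p q : ℕ × ℕ} (hp : Core θ f p) (hq : Core θ f q) :
    sT f p ∉ Ioc (sT f q) (eT f q) := by
  intro h1
  rcases lt2_tri p q with h | h | h
  · exact absurd (h1.1.trans_le (hp.s_le_e.trans (hq.e_lt_s h).le)) (lt_irrefl _)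
  · subst h
    exact lt_irrefl _ h1.1
  · exact absurd (h1.2.trans_lt (hp.e_lt_s h)) (lt_irrefl _)

theorem IsComb.agree {R : Blk W → W × ℕ} (hD : ∀ q, D q → Core θ f q) (hR : IsComb f D R)
    {q : ℕ × ℕ} (hdn : ∀ q', lt2 q' q → D q') (hq : D q) {b : Blk W} (hb : st b ≤ eT f q) :
    R b = (f q).2.R b := by
  have hc := hD q hq
  by_cases h : ∃ q', D q' ∧ st b ∈ Ioc (sT f q') (eT f q')
  · obtain ⟨q', hq', hb'⟩ := h
    rw [hR.ra1 q' hq' b hb']
    rcases lt2_tri q' q with h1 | h1 | h1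
    · rw [hc.mv.old b (hb'.2.trans (hc.e_lt_s h1).le), hc.ap.comb.ra1 q' h1 b hb']
    · rw [h1]
    · exact absurd (hb.trans_lt (((hD q' hq').e_lt_s h1).trans hb'.1)) (lt_irrefl _)
  · push Not at h
    rw [hR.ra2 b h]
    have h1 : st b ≤ sT f q := by
      by_contra hn
      exact h q hq ⟨not_le.1 hn, hb⟩
    rw [hc.mv.old b h1, hc.ap.comb.ra2 b fun q' hq' => h q' (hdn q' hq')]

theorem IsComb.origin {R : Blk W → W × ℕ} (hD : ∀ q, D q → Core θ f q) (hR : IsComb f D R)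
    {b : Blk W} (hb : R b ≠ dflt) :
    ∃ q, D q ∧ st b ∈ Ioc (sT f q) (eT f q) ∧
      NewOK (θ q.2) (slot f q.2 (q.1 + 1)) b (R b) ∧ RecOK (eT f q) b (R b) := by
  by_cases h : ∃ q', D q' ∧ st b ∈ Ioc (sT f q') (eT f q')
  · obtain ⟨q, hq, hb'⟩ := h
    have e := hR.ra1 q hq b hb'
    rw [e] at hb ⊢
    exact ⟨q, hq, hb', (hD q hq).mv.new b hb'.1 hb, (hD q hq).mv.val.rcd b hb⟩
  · push Not at h
    exact absurd (hR.ra2 b h) hb

theorem IsComb.countable {R : Blk W → W × ℕ} (hD : ∀ q, D q → Core θ f q) (hR : IsComb f D R) :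
    {b | R b ≠ dflt}.Countable := by
  have h : (⋃ q : {q // D q}, {b | (f q.1).2.R b ≠ dflt}).Countable :=
    countable_iUnion fun q => (hD q.1 q.2).mv.val.cnt
  refine h.mono ?_
  intro b hb
  obtain ⟨q, hq, hb', -⟩ := hR.origin hD hb
  refine mem_iUnion.2 ⟨⟨q, hq⟩, ?_⟩
  have e := hR.ra1 q hq b hb'
  intro e'
  exact hb (e.trans e')

theorem IsComb.adm {R : Blk W → W × ℕ} (hD : ∀ q, D q → Core θ f q) (hR : IsComb f D R)
    (hdn : ∀ q q', D q → lt2 q' q → D q') {η : W} {q₀ : ℕ × ℕ} (h₀ : D q₀)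
    (hη : ∀ q, D q → le2 q₀ q → η ∈ (f q).2.P) : Adm (F R η) := by
  have key : ∀ b, ∃ q₁, D q₁ ∧ ∀ q, D q → le2 q₁ q → R b = (f q).2.R b := by
    intro b
    by_cases h : ∃ q', D q' ∧ st b ≤ eT f q'
    · obtain ⟨q₁, hq₁, hb⟩ := h
      refine ⟨q₁, hq₁, fun q hq hle => ?_⟩
      exact hR.agree hD (fun q' hq' => hdn q q' hq hq') hq (hb.trans ((hD q hq).e_le_e hle))
    · push Not at h
      refine ⟨q₀, h₀, fun q hq _ => ?_⟩
      rw [hR.ra2 b fun q' hq' hb => absurd hb.2 (not_le.2 (h q' hq'))]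
      by_contra hn
      exact absurd ((hD q hq).mv.val.rcd b (Ne.symm hn)).stp (not_le.2 (h q hq))
  have ub : ∀ q₁ q₂, D q₁ → D q₂ → ∃ q, D q ∧ le2 q₁ q ∧ le2 q₂ q := by
    intro q₁ q₂ h1 h2
    rcases le2_total q₁ q₂ with h | h
    · exact ⟨q₂, h2, h, le2_refl _⟩
    · exact ⟨q₁, h1, le2_refl _, h⟩
  apply Adm.of_local
  intro b b'
  obtain ⟨q₁, h1, k1⟩ := key b
  obtain ⟨q₂, h2, k2⟩ := key b'
  obtain ⟨q₃, h3, l1, l2⟩ := ub q₁ q₂ h1 h2
  obtain ⟨q, hq, l3, l0⟩ := ub q₃ q₀ h3 h₀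
  refine ⟨F (f q).2.R η, (hD q hq).mv.val.adm η (hη q hq l0), ?_, ?_⟩
  · exact (F_congr (k1 q hq (le2_trans l1 l3)) η).symm
  · exact (F_congr (k2 q hq (le2_trans l2 l3)) η).symm

theorem exists_comb (hD : ∀ q, D q → Core θ f q) : ∃ R, IsComb f D R := by
  refine ⟨fun b => if h : ∃ q, D q ∧ st b ∈ Ioc (sT f q) (eT f q) then (f h.choose).2.R b
    else dflt, ?_, ?_⟩
  · intro q hq b hb
    have h : ∃ q, D q ∧ st b ∈ Ioc (sT f q) (eT f q) := ⟨q, hq, hb⟩
    simp only [dif_pos h]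
    rw [slot_unique (hD _ h.choose_spec.1) (hD q hq) h.choose_spec.2 hb]
  · intro b hb
    have h : ¬ ∃ q, D q ∧ st b ∈ Ioc (sT f q) (eT f q) := by
      rintro ⟨q, hq, h⟩
      exact hb q hq h
    simp only [dif_neg h]

/-- The start time of a round stays protected. -/
theorem special_mem {q : ℕ × ℕ} (hq : ∀ q', le2 q' q → Core θ f q') {t : ℕ}
    (ht : le2 (t, 0) q) : sT f (t, 0) ∈ (f q).2.P := by
  have hc := hq q (le2_refl q)
  rw [hc.mv.prot]
  · rw [hc.ap.pa]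
    rcases ht with ht | ht
    · exact Or.inr (Or.inl ⟨t, ht, rfl⟩)
    · subst ht
      exact Or.inl ⟨rfl, rfl⟩
  · intro g hg
    rw [mem_slot] at hg
    refine start_not_mem_slot (hq _ ht) (hq (g, q.2) ?_) hg.2
    obtain ⟨a, b⟩ := q
    rw [le2_mk]
    have := hg.1
    simp only at this ⊢
    omega

theorem exists_apart {p : ℕ × ℕ} (hp : ∀ q, lt2 q p → Core θ f q) {T : W}
    (hT : ∀ q, lt2 q p → eT f q < T) : ∃ A : Cfg W, A.T = T ∧ APart f p A := by
  obtain ⟨R, hR⟩ := exists_comb (D := fun q => lt2 q p) hp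
  have hdn : ∀ q q', lt2 q p → lt2 q' q → lt2 q' p := fun q q' h1 h2 => lt2_trans h2 h1
  refine ⟨⟨T, {η | Prot f p T η}, R⟩, rfl, hT, hR, fun _ => Iff.rfl, hR.countable hp, ?_, ?_, ?_⟩
  · intro b hb
    obtain ⟨q, hq, -, -, hr⟩ := hR.origin hp hb
    exact ⟨hr.leg, hr.stp.trans (hT q hq).le, fun a ha => (hr.tk a ha).trans (hT q hq).le, hr.al⟩
  · rintro η (⟨-, h⟩ | ⟨t, ht, h⟩ | ⟨q, hq, h, -⟩)
    · exact h.le
    · exact h.le.trans ((hp _ ht).s_le_e.trans (hT _ ht).le)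
    · exact h.2.trans (hT q hq).le
  · rintro η (⟨-, h⟩ | ⟨t, ht, h⟩ | ⟨q, hq, h, hP⟩)
    · have : F R η = fun _ _ => 0 := by
        funext b a
        apply F_of_not_act
        intro hact
        obtain ⟨q, hq, -, -, hr⟩ := hR.origin hp (ne_dflt_of_lt hact.2.1)
        have h1 := hact.2.2.1.trans_le ((hr.tk a hact.2.1).trans (hT q hq).le)
        rw [h] at h1
        exact lt_irrefl _ h1
      show Adm (F R η)
      rw [this]
      exact Adm.zero
    · refine hR.adm hp hdn ht ?_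
      intro q hq hle
      rw [h]
      exact special_mem (fun q' hq' => hp q' (lt2_of_le2_of_lt2 hq' hq)) hle
    · refine hR.adm hp hdn (last_lt2 hq) ?_
      intro q' hq' hle
      rcases hle with hlt | rfl
      · have hc := hp q' hq'
        have hqq : lt2 q q' := lt2_of_le2_of_lt2 (le2_last hq) hlt
        rw [hc.mv.prot]
        · rw [hc.ap.pa]
          refine Or.inr (Or.inr ⟨q, hqq, h, ?_⟩)
          rw [last_eq_of hlt hq']
          exact hP
        · intro g hg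
          rw [mem_slot] at hg
          have hl : lt2 (g, q'.2) p := by
            refine lt2_of_le2_of_lt2 ?_ hq'
            obtain ⟨a, b⟩ := q'
            rw [le2_mk]
            have := hg.1
            simp only at this ⊢
            omega
          have e := slot_unique (hp _ hl) (hp q hq) hg.2 h
          apply snd_ne_of_last hlt hq'
          rw [← e]
      · exact hP

end generic

end Pool.Agent.PL50
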