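import Pool.Agent.PL50.ClaimA

/-!
All winning strategies play against each other; this gives the statement (N).
-/

set_option autoImplicit false

namespace Pool.Agent.PL50

open Classical Blk Set

variable {W : Type} [LinearOrder W] [OrderBot W]

/-- After its move in round `t` the agent `n` is still in a good position. -/
def StatR (c : ℕ → Blk W → ℕ → ℕ) (m : ℕ → ℕ) (θ : W) (f : Hs W) (t n : ℕ) : Prop :=
  t < m n → Good (c n) θ (m n - t - 1) (t + 1) (gap θ f n (t + 1)) (slot f n (t + 1))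
    (Tr θ (f (t, n)).2)

omit [OrderBot W] in
theorem gap_zero (θ : W) (f : Hs W) (i : ℕ) : gap θ f i 0 = fun _ => ∅ := by
  funext g
  simp [gap]

theorem exists_real (hb : ∀ s : Set W, s.Countable → ∃ b, ∀ a ∈ s, a < b)
    (c : ℕ → Blk W → ℕ → ℕ) (m : ℕ → ℕ) (θ : W)
    (hG : ∀ n, Good (c n) θ (m n) 0 (fun _ => ∅) (fun _ => ∅) (start θ)) :
    ∃ f : Hs W, ∀ p, Core (fun _ => θ) f p ∧ θ < sT f p ∧ StatR c m θ f p.1 p.2 := by
  apply exists_hist
    (fun p (f : Hs W) => Core (fun _ => θ) f p ∧ θ < sT f p ∧ StatR c m θ f p.1 p.2)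
  · rintro ⟨t, i⟩ f g hfg ⟨h1, h2, h3⟩
    have h' : ∀ u < t + 1, f (u, i) = g (u, i) := fun u hu => hfg _ (le2_mk.2 (by omega))
    refine ⟨h1.congr rfl hfg, ?_, ?_⟩
    · unfold sT at h2 ⊢
      rwa [← hfg _ (le2_refl _)]
    · intro ht
      show Good (c i) θ (m i - t - 1) (t + 1) (gap θ g i (t + 1)) (slot g i (t + 1))
        (Tr θ (g (t, i)).2)
      rw [← gap_congr h', ← slot_congr h', ← h' t (by omega)]
      exact h3 ht
  · rintro ⟨t, i⟩ f hq
    have hp : ∀ q, lt2 q (t, i) → Core (fun _ => θ) f q := fun q h => (hq q h).1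
    obtain ⟨T, hT⟩ := hb (insert θ (range (eT f))) ((countable_range _).insert θ)
    obtain ⟨A, hAT, hA⟩ := exists_apart hp (T := T) (fun q _ => hT _ (Or.inr ⟨q, rfl⟩))
    have hθA : θ < A.T := by
      rw [hAT]
      exact hT θ (Or.inl rfl)
    have pre : t < m i → ∃ X : Cfg W, X.T = lo θ f i t ∧
        Good (c i) θ (m i - t) t (gap θ f i t) (slot f i t) X ∧
        Move θ (gapT θ f i t A.T) X (Tr θ A) := by
      intro ht
      cases t with
      | zero =>
        refine ⟨start θ, rfl, ?_, ?_⟩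
        · rw [gap_zero, slot_zero]
          exact hG i
        · exact gap_move_zero (θ := fun _ => θ) hp hA hθA.le (fun j hj => (hq _ hj).2.1.le)
            (fun _ => le_rfl) (fun q h => (hq q h).2.1.le)
      | succ u =>
        have hu : lt2 (u, i) (u + 1, i) := Or.inl (by simp)
        refine ⟨Tr θ (f (u, i)).2, rfl, ?_, ?_⟩
        · have e : m i - (u + 1) = m i - u - 1 := by omega
          rw [e]
          exact (hq _ hu).2.2 (by simp only; omega)
        · exact gap_move_succ (θ := fun _ => θ) hp hA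
            (fun j => (hq (0, j) (Or.inl (by simp))).2.1.le) (fun _ => Or.inl le_rfl)
    have main : ∃ B : Cfg W, Move θ (Function.update (slot f i t) t (Ioc A.T B.T)) A B ∧
        (t < m i → Good (c i) θ (m i - t - 1) (t + 1) (gapT θ f i t A.T)
          (Function.update (slot f i t) t (Ioc A.T B.T)) (Tr θ B)) := by
      by_cases ht : t < m i
      · obtain ⟨X, hXT, h1, hm⟩ := pre ht
        obtain ⟨k, hk⟩ : ∃ k, m i - t = k + 1 := ⟨m i - t - 1, by omega⟩
        rw [hk] at h1
        unfold Good at h1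
        rw [hXT] at h1
        obtain ⟨S'', hm', hS''⟩ := h1 (Tr θ A) hm
        obtain ⟨B, hmB, hTr⟩ := Move.lift hA.va (by
          intro g x hx
          by_cases hg : g = t
          · subst hg
            rw [Function.update_self] at hx
            exact hθA.trans hx.1
          · rw [Function.update_of_ne hg, mem_slot] at hx
            exact (hq (g, i) (Or.inl hx.1)).2.1.trans hx.2.1) hm'
        subst hTr
        refine ⟨B, hmB, fun _ => ?_⟩
        have e : m i - t - 1 = k := by omega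
        rw [e]
        exact hS''
      · exact ⟨A, Move.refl hA.va _ _, fun h => absurd h ht⟩
    obtain ⟨B, hmB, hst⟩ := main
    refine ⟨(A, B), ?_⟩
    have hne : ∀ q, lt2 q (t, i) → q ≠ (t, i) := by
      rintro q h rfl
      exact lt2_irrefl _ h
    set f₂ : Hs W := Function.update f (t, i) (A, B) with hf₂def
    have hf₂ : ∀ q, lt2 q (t, i) → f q = f₂ q := fun q h =>
      (Function.update_of_ne (hne q h) _ _).symm
    have hp₂ : f₂ (t, i) = (A, B) := by simp [f₂]
    have h12 : ∀ u < t, f (u, i) = f₂ (u, i) := fun u hu => hf₂ _ (Or.inl hu)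
    have es : sT f₂ (t, i) = A.T := by unfold sT; rw [hp₂]
    have ee : eT f₂ (t, i) = B.T := by unfold eT; rw [hp₂]
    have e1 : slot f₂ i (t + 1) = Function.update (slot f i t) t (Ioc A.T B.T) := by
      rw [slot_succ, es, ee, slot_congr h12]
    have e2 : gap θ f₂ i (t + 1) = gapT θ f i t A.T := by
      rw [gap_succ, es, gapT_congr h12]
    refine ⟨⟨?_, ?_⟩, ?_, ?_⟩
    · rw [hp₂]
      exact hA.congr hf₂
    · rw [hp₂]
      show Move θ (slot f₂ i (t + 1)) A B
      rw [e1]
      exact hmB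
    · rw [es]
      exact hθA
    · intro ht
      show Good (c i) θ (m i - t - 1) (t + 1) (gap θ f₂ i (t + 1)) (slot f₂ i (t + 1))
        (Tr θ (f₂ (t, i)).2)
      rw [e1, e2, hp₂]
      exact hst ht

theorem stmtN (hb : ∀ s : Set W, s.Countable → ∃ b, ∀ a ∈ s, a < b) : StmtN W := by
  intro c
  choose T hT using fun n => claimA hb (c n)
  obtain ⟨θ, hθ⟩ := hb (range T) (countable_range _)
  choose m hm using fun n => hT n θ (hθ _ ⟨n, rfl⟩)
  obtain ⟨f, hf⟩ := exists_real hb c m θ hm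
  have hc : ∀ q, Core (fun _ => θ) f q := fun q => (hf q).1
  obtain ⟨R, hR⟩ := exists_comb (D := fun _ => True) (fun q _ => hc q)
  obtain ⟨s₀, hs₀⟩ := hb (range (eT f)) (countable_range _)
  have hs' : ∀ q, eT f q < s₀ := fun q => hs₀ _ ⟨q, rfl⟩
  have hwin : ∀ n, ∃ y : Blk W × ℕ, Legit y.1 ∧ c n y.1 y.2 ≤ F R (sT f (0, 0)) y.1 y.2 := by
    intro n
    have hpos : m n ≠ 0 := by
      intro h0
      have := hm n
      rw [h0] at this
      obtain ⟨b, a, -, ha, -⟩ := this
      exact absurd ha (Nat.not_lt_zero a)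
    obtain ⟨u, hu⟩ : ∃ u, m n = u + 1 := ⟨m n - 1, by omega⟩
    have h1 := (hf (u, n)).2.2 (by simp only; omega)
    have e : m n - u - 1 = 0 := by omega
    simp only [e] at h1
    obtain ⟨b, a, h2, h3, h4, h5, h6⟩ := h1
    have hal := Tr_alive (ne_dflt_of_lt h3)
    rw [Tr_R_pos hal] at h2 h3 h6
    simp only at h2 h3 h6
    have hr := (hc (u, n)).mv.val.rcd b (ne_dflt_of_lt h3)
    have e1 : R b = (f (u, n)).2.R b :=
      hR.agree (fun q _ => hc q) (fun _ _ => trivial) trivial hr.stp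
    rw [← e1] at h2 h3 h6
    have hβ : (R b).1 ≤ θ := h2 ▸ le_max_left _ _
    obtain ⟨⟨g₀, i⟩, -, -, hn, -⟩ := hR.origin (fun q _ => hc q) (ne_dflt_of_lt h3)
    obtain ⟨g, hg⟩ := hn.tk a h3 (hβ.trans_lt h4)
    rw [mem_slot] at hg
    have hτ : θ < sT f (0, 0) := (hf (0, 0)).2.1
    refine ⟨(b, a), hr.leg, ?_⟩
    rw [F_of_act ⟨hβ.trans_lt hτ, h3, (s_le_s hc (le2_mk.2 (by omega))).trans_lt hg.2.1,
      fun a' ha' => (h5 a' ha').trans hτ.le⟩]
    exact h6
  choose y hy using hwin
  refine ⟨s₀, y, fun n => (hy n).1, fun s hs => ?_⟩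
  obtain ⟨v, hv, hvs, hvr, hvd, -, -⟩ := exists_viewer R (hR.countable fun q _ => hc q) s
    (by
      intro b hb
      obtain ⟨q, -, -, -, hr⟩ := hR.origin (fun q _ => hc q) hb
      exact ⟨hr.leg, hr.stp.trans_lt ((hs' q).trans hs)⟩)
    (fun _ => sT f (0, 0)) (fun _ => ⊥) monotone_const (fun _ => bot_le)
    (fun _ => hR.adm (fun q _ => hc q) (fun _ _ _ _ => trivial) (q₀ := (0, 0)) trivial
      fun q _ hq => special_mem (fun q' _ => hc q') hq) (fun _ _ => 0)
  refine ⟨v, hv, hvs, by rw [hvr], fun n => ?_⟩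
  rw [hvd]
  exact (hy n).2

end Pool.Agent.PL50
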