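import Pool.Agent.PL50.Real

/-!
The space: points are pairs (legitimate block, index).
-/

set_option autoImplicit false

namespace Pool.Agent.PL50

open Classical Blk Set Topology

variable {W : Type} [LinearOrder W]

/-- The points of the space. -/
def Pt (W : Type) [LinearOrder W] : Type := {p : Blk W × ℕ // Legit p.1}

namespace Pt

def bl (p : Pt W) : Blk W := p.1.1

def ix (p : Pt W) : ℕ := p.1.2

theorem leg (p : Pt W) : Legit p.bl := p.2

theorem ext' {p q : Pt W} (h1 : p.bl = q.bl) (h2 : p.ix = q.ix) : p = q :=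
  Subtype.ext (Prod.ext h1 h2)

/-- Depth of `u` below `p`. -/
noncomputable def dep (u p : Pt W) : ℕ := dp u.bl u.ix p.bl p.ix

def rank (p : Pt W) : W := rk p.bl p.ix

/-- The guardian of a point. -/
def nxt (p : Pt W) : Pt W := ⟨(p.bl, p.ix + 1), p.leg⟩

/-- Basic neighbourhoods. -/
def U (k : ℕ) (p : Pt W) : Set (Pt W) := {u | u = p ∨ k < dep u p}

theorem self_mem_U (k : ℕ) (p : Pt W) : p ∈ U k p := Or.inl rfl

theorem U_anti {k l : ℕ} (h : k ≤ l) (p : Pt W) : U l p ⊆ U k p := by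
  rintro u (hu | hu)
  · exact Or.inl hu
  · exact Or.inr (h.trans_lt hu)

theorem lt_of_dep {u p : Pt W} (h : dep u p ≠ 0) : lt p.bl u.bl := lt_of_dp_ne h

theorem st_lt_of_dep {u p : Pt W} (h : dep u p ≠ 0) : st p.bl < st u.bl :=
  u.leg.st_lt _ (lt_of_dep h)

theorem rank_lt_of_dep {u p : Pt W} (h : dep u p ≠ 0) : u.rank < p.rank :=
  u.leg.rk_lt _ _ _ h

instance : TopologicalSpace (Pt W) where
  IsOpen s := ∀ u ∈ s, ∃ k, U k u ⊆ s
  isOpen_univ := fun _ _ => ⟨0, subset_univ _⟩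
  isOpen_inter := by
    intro s t hs ht u hu
    obtain ⟨k, hk⟩ := hs u hu.1
    obtain ⟨l, hl⟩ := ht u hu.2
    exact ⟨max k l, subset_inter ((U_anti (le_max_left k l) u).trans hk)
      ((U_anti (le_max_right k l) u).trans hl)⟩
  isOpen_sUnion := by
    rintro S hS u ⟨s, hs, hu⟩
    obtain ⟨k, hk⟩ := hS s hs u hu
    exact ⟨k, hk.trans (subset_sUnion_of_mem hs)⟩

theorem isOpen_iff {s : Set (Pt W)} : IsOpen s ↔ ∀ u ∈ s, ∃ k, U k u ⊆ s := Iff.rfl

theorem dep_eq {u p v : Pt W} (h : lt p.bl u.bl) (hv : md u.bl u.ix p.bl < dep v u) :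
    dep v p = dep u p :=
  (v.leg.adm v.ix).idn u.bl u.ix p.bl (by unfold dep at hv; omega) hv.le h p.ix

theorem isOpen_U (k : ℕ) (p : Pt W) : IsOpen (U k p) := by
  rw [isOpen_iff]
  rintro u (rfl | hu)
  · exact ⟨k, subset_rfl⟩
  · refine ⟨md u.bl u.ix p.bl, ?_⟩
    rintro v (rfl | hv)
    · exact Or.inr hu
    · right
      rw [dep_eq (lt_of_dep (by omega)) hv]
      exact hu

theorem guard {v w x : Pt W} (hw : dep v w ≠ 0) (h : lt x.bl w.bl) (h2 : 2 ≤ dep v x) :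
    dep v x ≤ dep w x ∨ dep v x ≤ dep w x.nxt + 1 :=
  (v.leg.adm v.ix).grd w.bl w.ix x.bl x.ix hw h h2

theorem cmp {v p q : Pt W} (hp : dep v p ≠ 0) (hq : dep v q ≠ 0) :
    p = q ∨ lt p.bl q.bl ∨ lt q.bl p.bl := by
  rcases (v.leg.adm v.ix).cmp p.bl p.ix q.bl q.ix hp hq with h | h
  · left
    refine ext' h (v.leg.one v.ix q.bl _ _ ?_ hq)
    rw [← h]
    exact hp
  · exact Or.inr h

theorem cmp_of_mem {v p q : Pt W} {k l : ℕ} (hp : v ∈ U k p) (hq : v ∈ U l q) :
    p = q ∨ lt p.bl q.bl ∨ lt q.bl p.bl := by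
  rcases hp with rfl | hp
  · rcases hq with rfl | hq
    · exact Or.inl rfl
    · exact Or.inr (Or.inr (lt_of_dep (by omega)))
  · rcases hq with rfl | hq
    · exact Or.inr (Or.inl (lt_of_dep (by omega)))
    · exact cmp (v := v) (by omega) (by omega)

theorem isClosed_U (k : ℕ) (p : Pt W) : IsClosed (U k p) := by
  rw [← isOpen_compl_iff, isOpen_iff]
  intro u hu
  have hne : u ≠ p := fun e => hu (Or.inl e)
  have hk : dep u p ≤ k := not_lt.1 fun e => hu (Or.inr e)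
  by_cases h1 : lt p.bl u.bl
  · refine ⟨md u.bl u.ix p.bl, ?_⟩
    rintro v (rfl | hv)
    · exact hu
    · rintro (rfl | h)
      · exact lt_asymm (u.leg.st_lt _ h1) (st_lt_of_dep (u := v) (p := u) (by omega))
      · rw [dep_eq h1 hv] at h
        omega
  · by_cases h2 : lt u.bl p.bl
    · refine ⟨max (dep p u) (dep p u.nxt + 1) + 1, ?_⟩
      rintro v (rfl | hv)
      · exact hu
      · rintro (rfl | h)
        · omega
        · have := guard (v := v) (w := p) (x := u) (by omega) h2 (by omega)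
          omega
    · refine ⟨0, fun v hv hv' => ?_⟩
      rcases cmp_of_mem hv hv' with h | h | h
      · exact hne h
      · exact h2 h
      · exact h1 h

theorem U_mem_nhds (k : ℕ) (p : Pt W) : U k p ∈ 𝓝 p := (isOpen_U k p).mem_nhds (self_mem_U k p)

theorem exists_U_subset {p : Pt W} {s : Set (Pt W)} (h : s ∈ 𝓝 p) : ∃ k, U k p ⊆ s := by
  obtain ⟨t, hts, ht, hp⟩ := mem_nhds_iff.1 h
  obtain ⟨k, hk⟩ := isOpen_iff.1 ht p hp
  exact ⟨k, hk.trans hts⟩

instance : T0Space (Pt W) := by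
  rw [t0Space_iff_exists_isOpen_xor_mem]
  intro x y hxy
  refine ⟨U (dep x y) y, isOpen_U _ _, Or.inr ⟨self_mem_U _ _, ?_⟩⟩
  rintro (h | h)
  · exact hxy h
  · exact lt_irrefl _ h

instance : RegularSpace (Pt W) := by
  apply RegularSpace.of_exists_mem_nhds_isClosed_subset
  intro x s hs
  obtain ⟨k, hk⟩ := exists_U_subset hs
  exact ⟨U k x, U_mem_nhds k x, isClosed_U k x, hk⟩

instance : T3Space (Pt W) := {}

theorem basis : TopologicalSpace.IsTopologicalBasis {s : Set (Pt W) | ∃ k p, s = U k p} := by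
  apply TopologicalSpace.isTopologicalBasis_of_isOpen_of_nhds
  · rintro s ⟨k, p, rfl⟩
    exact isOpen_U k p
  · intro a s ha hs
    obtain ⟨k, hk⟩ := isOpen_iff.1 hs a ha
    exact ⟨U k a, ⟨k, a, rfl⟩, self_mem_U k a, hk⟩

theorem bco [WellFoundedLT W] (x : Pt W) (b : ℕ → Set (Pt W))
    (hb : ∀ n, b n ∈ {s : Set (Pt W) | ∃ k p, s = U k p}) (hx : ∀ n, x ∈ b n)
    (hd : ∀ n, b (n + 1) ⊂ b n) (s : Set (Pt W)) (hs : s ∈ 𝓝 x) : ∃ n, b n ⊆ s := by
  choose k p hkp using hb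
  have hanti : StrictAnti b := strictAnti_nat_of_succ_lt hd
  obtain ⟨_, ⟨n₀, rfl⟩, hmin⟩ :=
    (wellFounded_lt (α := W)).has_min (range fun n => (p n).rank) (range_nonempty _)
  have hp : ∀ j, p (n₀ + j) = p n₀ := by
    intro j
    have h1 : p (n₀ + j) ∈ b n₀ := by
      apply hanti.antitone (Nat.le_add_right n₀ j)
      rw [hkp]
      exact self_mem_U _ _
    rw [hkp] at h1
    rcases h1 with h1 | h1
    · exact h1
    · exact absurd (rank_lt_of_dep (by omega)) (hmin _ ⟨n₀ + j, rfl⟩)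
  have hk : ∀ j, j ≤ k (n₀ + j) := by
    intro j
    induction j with
    | zero => exact Nat.zero_le _
    | succ j ih =>
      by_contra hn
      have h1 : b (n₀ + j) ⊆ b (n₀ + j + 1) := by
        rw [hkp, hkp, hp j]
        have := hp (j + 1)
        rw [← Nat.add_assoc] at this
        rw [this]
        apply U_anti
        rw [← Nat.add_assoc] at hn
        omega
      exact (hd (n₀ + j)).2 h1
  have hxp : x = p n₀ := by
    have h1 := hx (n₀ + dep x (p n₀))
    rw [hkp, hp] at h1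
    rcases h1 with h1 | h1
    · exact h1
    · have := hk (dep x (p n₀))
      omega
  obtain ⟨l, hl⟩ := exists_U_subset hs
  refine ⟨n₀ + l, ?_⟩
  rw [hkp, hp, ← hxp]
  exact (U_anti (hk l) x).trans hl

theorem countable_below (x : Pt W) : {a : Pt W | a.bl = x.bl ∨ lt a.bl x.bl}.Countable := by
  have h1 : ((insert x.bl {b | lt b x.bl}) ×ˢ (univ : Set ℕ)).Countable :=
    ((countable_lt x.bl).insert _).prod countable_univ
  refine (h1.preimage_of_injOn (f := fun a : Pt W => a.1) ?_).mono ?_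
  · exact Subtype.val_injective.injOn
  · intro a ha
    exact ⟨ha, trivial⟩

theorem paraLindelof [WellFoundedLT W] (𝒰 : Set (Set (Pt W))) (ho : ∀ u ∈ 𝒰, IsOpen u)
    (hc : ⋃₀ 𝒰 = univ) :
    ∃ 𝒱 : Set (Set (Pt W)), (∀ v ∈ 𝒱, IsOpen v) ∧ ⋃₀ 𝒱 = univ ∧
      (∀ v ∈ 𝒱, ∃ u ∈ 𝒰, v ⊆ u) ∧
      ∀ x : Pt W, ∃ n ∈ 𝓝 x, {v ∈ 𝒱 | (v ∩ n).Nonempty}.Countable := by
  have h1 : ∀ p : Pt W, ∃ k, ∃ u ∈ 𝒰, U k p ⊆ u := by
    intro p
    obtain ⟨u, hu, hp⟩ : p ∈ ⋃₀ 𝒰 := by rw [hc]; trivial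
    obtain ⟨k, hk⟩ := isOpen_iff.1 (ho u hu) p hp
    exact ⟨k, u, hu, hk⟩
  choose c hcU using h1
  let m : Pt W → ℕ := fun x => max (c x) (c x.nxt + 1)
  let O : Pt W → Set (Pt W) := fun a => {z | ∃ x, lt x.bl a.bl ∧ z ∈ U (m x) x}
  let V : Pt W → Set (Pt W) := fun a => U (c a) a \ closure (O a)
  have key : ∀ x w z : Pt W, lt x.bl w.bl → z ∈ U 0 w → z ∈ U (m x) x →
      w ∈ U (c x) x ∨ w ∈ U (c x.nxt) x.nxt := by
    intro x w z hxw hz hz'
    have hm1 : c x ≤ m x := le_max_left _ _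
    have hm2 : c x.nxt + 1 ≤ m x := le_max_right _ _
    rcases hz with rfl | hz
    · exact Or.inl (U_anti hm1 x hz')
    · rcases hz' with rfl | hz'
      · exact absurd (st_lt_of_dep (u := z) (p := w) (by omega)) (lt_asymm (w.leg.st_lt _ hxw))
      · rcases guard (v := z) (w := w) (x := x) (by omega) hxw (by omega) with h | h
        · exact Or.inl (Or.inr (by omega))
        · exact Or.inr (Or.inr (by omega))
  refine ⟨range V, ?_, ?_, ?_, ?_⟩
  · rintro _ ⟨a, rfl⟩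
    exact (isOpen_U _ _).sdiff isClosed_closure
  · rw [eq_univ_iff_forall]
    intro w
    obtain ⟨_, ⟨a, ha, rfl⟩, hmin⟩ := (wellFounded_lt (α := W)).has_min
      ((fun a : Pt W => st a.bl) '' {a | w ∈ U (c a) a}) ⟨_, w, self_mem_U _ _, rfl⟩
    refine ⟨V a, ⟨a, rfl⟩, ha, ?_⟩
    rw [mem_closure_iff_nhds]
    intro hcl
    obtain ⟨z, hz, x, hxa, hz'⟩ := hcl (U 0 w) (U_mem_nhds 0 w)
    have hxw : lt x.bl w.bl := by
      rcases ha with rfl | ha
      · exact hxa
      · exact w.leg.trans _ _ hxa (lt_of_dep (by omega))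
    have hst : st x.bl < st a.bl := a.leg.st_lt _ hxa
    rcases key x w z hxw hz hz' with h | h
    · exact hmin _ ⟨x, h, rfl⟩ hst
    · exact hmin _ ⟨x.nxt, h, rfl⟩ hst
  · rintro _ ⟨a, rfl⟩
    obtain ⟨u, hu, h⟩ := hcU a
    exact ⟨u, hu, sdiff_subset.trans h⟩
  · intro x
    refine ⟨U (m x) x, U_mem_nhds _ _, ((countable_below x).image V).mono ?_⟩
    rintro _ ⟨⟨a, rfl⟩, z, hz, hz'⟩
    refine ⟨a, ?_, rfl⟩
    rcases cmp_of_mem hz.1 hz' with h | h | h
    · exact Or.inl (by rw [h])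
    · exact Or.inr h
    · have hO : z ∈ O a := ⟨x, h, hz'⟩
      exact absurd (subset_closure hO) hz.2

theorem no_base [OrderBot W] (hb : ∀ s : Set W, s.Countable → ∃ b, ∀ a ∈ s, a < b)
    (𝓑 : Set (Set (Pt W))) (hB : TopologicalSpace.IsTopologicalBasis 𝓑)
    (f : ℕ → Set (Set (Pt W))) (hf : 𝓑 = ⋃ n, f n)
    (hl : ∀ (n : ℕ) (x : Pt W), ∃ u ∈ 𝓝 x, {v ∈ f n | (v ∩ u).Nonempty}.Countable) : False := by
  have h1 : ∀ (n : ℕ) (x : Pt W), ∃ k, {v ∈ f n | (v ∩ U k x).Nonempty}.Countable := by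
    intro n x
    obtain ⟨u, hu, hc⟩ := hl n x
    obtain ⟨k, hk⟩ := exists_U_subset hu
    refine ⟨k, hc.mono ?_⟩
    rintro v ⟨hv, z, hz, hz'⟩
    exact ⟨hv, z, hz, hk hz'⟩
  choose k hk using h1
  obtain ⟨T, y, hy, hv⟩ := stmtN hb
    (fun n b a => if h : Legit b then k n ⟨(b, a), h⟩ + 1 else 0)
  choose v hvl hvs hvr hvd using hv
  let yp : ℕ → Pt W := fun n => ⟨y n, hy n⟩
  let vp : Ioi T → Pt W := fun s => ⟨(v s.1 s.2, 0), hvl s.1 s.2⟩
  have hmem : ∀ s n, vp s ∈ U (k n (yp n)) (yp n) := by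
    intro s n
    right
    have := hvd s.1 s.2 n
    simp only [dif_pos (hy n)] at this
    exact this
  have hsing : ∀ s, ∃ n, {vp s} ∈ f n := by
    intro s
    obtain ⟨t, ht, h1, h2⟩ := hB.exists_subset_of_mem_open (self_mem_U 0 (vp s)) (isOpen_U 0 _)
    have e : t = {vp s} := by
      refine Subset.antisymm (fun z hz => ?_) (singleton_subset_iff.2 h1)
      rcases h2 hz with h | h
      · exact h
      · have h3 := rank_lt_of_dep (u := z) (p := vp s) (by omega)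
        have h4 : (vp s).rank = ⊥ := hvr s.1 s.2
        rw [h4] at h3
        exact absurd h3 not_lt_bot
    rw [e, hf] at ht
    exact mem_iUnion.1 ht
  have hinj : Function.Injective fun s => ({vp s} : Set (Pt W)) := by
    intro s s' h
    have h1 : vp s = vp s' := singleton_injective h
    have h2 : st (vp s).bl = st (vp s').bl := by rw [h1]
    apply Subtype.ext
    exact (hvs s.1 s.2).symm.trans (h2.trans (hvs s'.1 s'.2))
  have hcnt : (univ : Set (Ioi T)).Countable := by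
    refine (countable_iUnion fun n => (hk n (yp n)).preimage_of_injOn hinj.injOn).mono ?_
    intro s _
    obtain ⟨n, hn⟩ := hsing s
    exact mem_iUnion.2 ⟨n, hn, vp s, rfl, hmem s n⟩
  have hc2 : (insert T (Ioi T)).Countable :=
    (countable_coe_iff.1 (countable_univ_iff.1 hcnt)).insert T
  obtain ⟨b, hb'⟩ := hb _ hc2
  exact lt_irrefl b (hb' b (Or.inr (hb' T (Or.inl rfl))))

end Pt

/-- The first uncountable ordinal as a type. -/
abbrev W₁ : Type := (Cardinal.aleph 1).ord.ToType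

theorem W₁_bdd (s : Set W₁) (hs : s.Countable) : ∃ b, ∀ a ∈ s, a < b := by
  have h1 : ∀ a : W₁, (Iic a).Countable := by
    intro a
    rw [← Iio_insert]
    apply Countable.insert
    rw [← Cardinal.le_aleph0_iff_set_countable, ← Cardinal.lt_aleph_one_iff]
    exact Cardinal.mk_Iio_toType_ord_lt a
  have h2 : (⋃ a ∈ s, Iic a).Countable := hs.biUnion fun a _ => h1 a
  have h3 : Uncountable W₁ := by
    rw [← Cardinal.aleph1_le_mk_iff, Cardinal.mk_ord_toType]
  by_contra hn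
  push Not at hn
  apply not_countable_univ (α := W₁)
  refine h2.mono fun b _ => ?_
  obtain ⟨a, ha, hab⟩ := hn b
  exact mem_biUnion ha hab

end Pool.Agent.PL50
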